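import Mathlib

/-!
# Statements for the k-point functions of the gauge invariant local fields of lattice Yang-Mills
-/

open MeasureTheory Matrix Filter
open scoped Topology

namespace Pool.Agent.W793.SCH

noncomputable section

/-! ### the sum over pairings -/

/-- The sum over the perfect matchings of the list of the products of the entries `A`:
the first element is matched with any of the others. -/
def haf {ι : Type*} (A : ι → ι → ℝ) : List ι → ℝ
  | [] => 1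
  | a :: l => ∑ i : Fin l.length, A a (l.get i) * haf A (l.eraseIdx i)
termination_by l => l.length
decreasing_by
  simp only [List.length_cons]
  have := List.length_eraseIdx_of_lt i.isLt
  omega

/-- The legs `(r, false)`, `(r, true)` of `k` quadratic fields. -/
def legs (k : ℕ) : List (Fin k × Bool) := (List.finRange k).flatMap fun r => [(r, false), (r, true)]

/-- The sum over the perfect matchings of the legs in which no leg is matched with the other leg of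
the same field. -/
def wick (k : ℕ) (A : Fin k × Bool → Fin k × Bool → ℝ) : ℝ :=
  haf (fun u v => if u.1 = v.1 then 0 else A u v) (legs k)

/-- Hypotheses: random variables whose characteristic functional is `δ`-close to the Gaussian one
with covariance `A`. -/
structure Near {ι : Type} [Fintype ι] {Ω : Type} [MeasurableSpace Ω] (P : Measure Ω)
    (X : ι → Ω → ℝ) (A : ι → ι → ℝ) (p : ℕ) (M δ : ℝ) : Prop where
  meas : ∀ l, Measurable (X l)
  bdd : ∃ B : ℝ, ∀ l ω, |X l ω| ≤ B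
  one_le : 1 ≤ M
  nonneg : 0 ≤ δ
  symm : ∀ l l', A l l' = A l' l
  psd : ∀ s : ι → ℝ, 0 ≤ ∑ l, ∑ l', s l * s l' * A l l'
  bound : ∀ l l', |A l l'| ≤ M
  mom : ∀ l, ∫ ω, |X l ω| ^ p ∂P ≤ M
  cos : ∀ s : ι → ℝ, (∀ l, |s l| ≤ 1) → |(∫ ω, Real.cos (∑ l, s l * X l ω) ∂P) -
    Real.exp (-(1 / 2 * ∑ l, ∑ l', s l * s l' * A l l'))| ≤ δ
  sin : ∀ s : ι → ℝ, (∀ l, |s l| ≤ 1) → |∫ ω, Real.sin (∑ l, s l * X l ω) ∂P| ≤ δ

/-- The moments are close to the sums over the pairings. -/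
def S_W1 : Prop := ∀ m : ℕ, ∃ C : ℝ, 0 < C ∧ ∀ (ι : Type) [Fintype ι] [DecidableEq ι] (Ω : Type)
  [MeasurableSpace Ω] (P : Measure Ω) [IsProbabilityMeasure P] (X : ι → Ω → ℝ) (A : ι → ι → ℝ)
  (M δ h : ℝ), Near P X A (m + 2) M δ → 0 < h → h ≤ 1 → ∀ L : List ι, L.Nodup → L.length ≤ m →
    |(∫ ω, (L.map fun l => X l ω).prod ∂P) - haf A L| ≤ C * (δ / h ^ m + h ^ 2 * M ^ (m + 2))

/-- Algebra: the alternating sum over the subsets removes the pairings inside the fields. -/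
def S_W2 : Prop := ∀ (k : ℕ) (A : Fin k × Bool → Fin k × Bool → ℝ), (∀ u v, A u v = A v u) →
  ∑ S : Finset (Fin k), (∏ r ∈ Finset.univ \ S, -A (r, false) (r, true)) *
    haf A ((legs k).filter fun u => u.1 ∈ S) = wick k A

/-- The centred k-point function. -/
def S_WC : Prop := ∀ k : ℕ, ∃ C : ℝ, 0 < C ∧ ∀ (Ω : Type) [MeasurableSpace Ω] (P : Measure Ω)
  [IsProbabilityMeasure P] (X : Fin k × Bool → Ω → ℝ) (A : Fin k × Bool → Fin k × Bool → ℝ)
  (M δ h : ℝ), Near P X A (2 * k + 2) M δ → 0 < h → h ≤ 1 →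
    |(∫ ω, ∏ r : Fin k, (X (r, false) ω * X (r, true) ω -
      ∫ ω', X (r, false) ω' * X (r, true) ω' ∂P) ∂P) - wick k A| ≤
        C * M ^ (4 * k + 4) * (δ / h ^ (2 * k) + h ^ 2)

/-! ### the lattice Green function -/

/-- The transition probabilities of the lazy random walk on `ℤ^d`. -/
def pk (d : ℕ) : ℕ → (Fin d → ℤ) → ℝ
  | 0, z => if z = 0 then 1 else 0
  | k + 1, z => 1 / 2 * pk d k z + 1 / (4 * d : ℝ) *
      ∑ i, (pk d k (z + Pi.single i 1) + pk d k (z - Pi.single i 1))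

/-- The Green function of the lattice Laplacian. -/
def green (d : ℕ) (z : Fin d → ℤ) : ℝ := 1 / (4 * d : ℝ) * ∑' k, pk d k z

/-- The truncated Green function. -/
def gK (d K : ℕ) (z : Fin d → ℤ) : ℝ :=
  1 / (4 * d : ℝ) * ∑ k ∈ Finset.range K, (pk d k z - pk d (K + k) z)

/-- The mixed second difference, forward in direction `j`, backward in direction `l`. -/
def DD {d : ℕ} (j l : Fin d) (g : (Fin d → ℤ) → ℝ) (z : Fin d → ℤ) : ℝ :=
  g (z + Pi.single j 1) - g z - g (z + Pi.single j 1 - Pi.single l 1) + g (z - Pi.single l 1)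

/-- The covariance of the Maxwell field strength built from the mixed second derivatives `h` of the
Green function: `E F_{jk}(x) F_{lm}(y)`. -/
def mx {d : ℕ} (h : Fin d → Fin d → ℝ) (j k l m : Fin d) : ℝ :=
  -(if k = m then h j l else 0) + (if k = l then h j m else 0) + (if j = m then h k l else 0) -
    (if j = l then h k m else 0)

/-- The second derivatives of the Green function of the Laplacian on `ℝ^d`. -/
def hess (d : ℕ) (j l : Fin d) (x : Fin d → ℝ) : ℝ :=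
  Real.Gamma ((d : ℝ) / 2) / (2 * Real.pi ^ ((d : ℝ) / 2)) * (∑ i, x i ^ 2) ^ (-((d : ℝ) / 2)) *
    (d * x j * x l / (∑ i, x i ^ 2) - if j = l then 1 else 0)

/-- The symbol. -/
def lam {d : ℕ} (θ : Fin d → ℝ) : ℝ := ∑ i, (2 - 2 * Real.cos (θ i))

/-- The box `[-π, π]^d`. -/
def box (d : ℕ) : Set (Fin d → ℝ) := Set.univ.pi fun _ => Set.Icc (-Real.pi) Real.pi

/-- The heat kernel on `ℤ`. -/
def hk (t : ℝ) (n : ℤ) : ℝ :=
  1 / (2 * Real.pi) * ∫ θ in (-Real.pi)..Real.pi, Real.cos (n * θ) *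
    Real.exp (-(t * (2 - 2 * Real.cos θ)))

/-- The heat kernel on `ℤ` and its differences of order one and two. -/
def hd (r : ℕ) (t : ℝ) (n : ℤ) : ℝ :=
  if r = 0 then hk t n else if r = 1 then hk t (n + 1) - hk t n else
    hk t (n + 1) - 2 * hk t n + hk t (n - 1)

/-- The heat kernel on `ℝ` and its derivatives of order one and two. -/
def rd (r : ℕ) (t x : ℝ) : ℝ :=
  Real.exp (-(x ^ 2 / (4 * t))) / Real.sqrt (4 * Real.pi * t) *
    (if r = 0 then 1 else if r = 1 then -(x / (2 * t)) else x ^ 2 / (4 * t ^ 2) - 1 / (2 * t))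

/-- Fourier representation of the walk. -/
def S_FR : Prop := ∀ (d k : ℕ), 1 ≤ d → ∀ z : Fin d → ℤ, pk d k z =
  1 / (2 * Real.pi) ^ d * ∫ θ in box d, (1 - lam θ / (4 * d)) ^ k * Real.cos (∑ i, θ i * z i)

/-- The walk spreads. -/
def S_SUP : Prop := ∀ d : ℕ, 1 ≤ d → ∃ C : ℝ, 0 < C ∧ ∀ (k : ℕ) (z : Fin d → ℤ),
  0 ≤ pk d k z ∧ (1 ≤ k → pk d k z ≤ C / Real.sqrt k ^ d)

/-- The truncation of the Green function. -/
def S_TR : Prop := ∀ d : ℕ, 3 ≤ d → ∃ C : ℝ, 0 < C ∧ (∀ z, Summable fun k => pk d k z) ∧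
  (∀ z, |green d z| ≤ C) ∧
  ∀ (K : ℕ) (z : Fin d → ℤ), 1 ≤ K → |gK d K z - green d z| ≤ C / Real.sqrt K

/-- The Green function is the integral of the heat kernel. -/
def S_GI : Prop := ∀ d : ℕ, 3 ≤ d → ∀ z : Fin d → ℤ,
  IntegrableOn (fun t : ℝ => ∏ i, hk t (z i)) (Set.Ioi 0) ∧
    green d z = ∫ t in Set.Ioi (0 : ℝ), ∏ i, hk t (z i)

/-- Bounds for the heat kernel on `ℤ`. -/
def S_HB : Prop := ∀ M : ℕ, ∃ C : ℝ, 0 < C ∧ ∀ r < 3, ∀ t : ℝ, 0 ≤ t → ∀ n : ℤ,
  |hd r t n| ≤ C / Real.sqrt (1 + t) ^ (r + 1) * ((1 + t) / (1 + t + n ^ 2)) ^ M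

/-- The local limit theorem for the heat kernel. -/
def S_HL : Prop := ∀ r < 3, ∀ t x : ℝ, 0 < t → ∀ z : ℕ → ℤ,
  Tendsto (fun q : ℕ => (z q : ℝ) / q) atTop (𝓝 x) →
    Tendsto (fun q : ℕ => (q : ℝ) ^ (r + 1) * hd r ((q : ℝ) ^ 2 * t) (z q)) atTop (𝓝 (rd r t x))

/-- The Gaussian integral which gives the second derivatives of the Green function. -/
def S_GG : Prop := ∀ (d : ℕ) (j l : Fin d) (x : Fin d → ℝ), 3 ≤ d → x ≠ 0 →
  IntegrableOn (fun t : ℝ => ∏ i, rd ((if i = j then 1 else 0) + (if i = l then 1 else 0)) t (x i))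
    (Set.Ioi 0) ∧
  ∫ t in Set.Ioi (0 : ℝ), ∏ i, rd ((if i = j then 1 else 0) + (if i = l then 1 else 0)) t (x i) =
    hess d j l x

/-- The lattice Green function at large distances. -/
def S_KER : Prop := ∀ d : ℕ, 3 ≤ d → ∀ (j l : Fin d) (x : Fin d → ℝ), x ≠ 0 →
  ∀ z : ℕ → Fin d → ℤ, (∀ i, Tendsto (fun q : ℕ => (z q i : ℝ) / q) atTop (𝓝 (x i))) →
    Tendsto (fun q : ℕ => (q : ℝ) ^ d * DD j l (green d) (z q)) atTop (𝓝 (hess d j l x))

/-! ### Lie algebra -/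

/-- The adjoint action of the group preserves the scalar product of the projections to the Lie
algebra. -/
def S_AD : Prop := ∀ (N n : ℕ) (G : Subgroup (unitaryGroup (Fin N) ℂ))
  (X : Fin n → Matrix (Fin N) (Fin N) ℂ) (ex : Fin n → ℝ → G),
  (∀ a t, ((ex a t : unitaryGroup (Fin N) ℂ) : Matrix (Fin N) (Fin N) ℂ) =
    NormedSpace.exp (t • X a)) →
  (∀ a b, (trace ((X a)ᴴ * X b)).re = if a = b then 1 else 0) →
  (∀ Y : Matrix (Fin N) (Fin N) ℂ, (∀ t : ℝ, ∃ g : G, ((g : unitaryGroup (Fin N) ℂ) :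
    Matrix (Fin N) (Fin N) ℂ) = NormedSpace.exp (t • Y)) → Y ∈ Submodule.span ℝ (Set.range X)) →
  ∀ (h : G) (A B : Matrix (Fin N) (Fin N) ℂ),
    ∑ a, (trace ((X a)ᴴ * (((h : unitaryGroup (Fin N) ℂ) : Matrix (Fin N) (Fin N) ℂ) * A *
        (((h⁻¹ : G) : unitaryGroup (Fin N) ℂ) : Matrix (Fin N) (Fin N) ℂ)))).re *
      (trace ((X a)ᴴ * (((h : unitaryGroup (Fin N) ℂ) : Matrix (Fin N) (Fin N) ℂ) * B *
        (((h⁻¹ : G) : unitaryGroup (Fin N) ℂ) : Matrix (Fin N) (Fin N) ℂ)))).re =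
    ∑ a, (trace ((X a)ᴴ * A)).re * (trace ((X a)ᴴ * B)).re

end

end Pool.Agent.W793.SCH
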