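import Mathlib
import Pool.Agent.W793.SCH.Stm

/-!
# Statements for the k-point functions: elementary properties of the sum over pairings
-/

namespace Pool.Agent.W793.SCH

noncomputable section

/-- Bounds and homogeneity of the sum over pairings. -/
def S_HAF : Prop :=
  (∀ (ι : Type) (A : ι → ι → ℝ) (B : ℝ) (L : List ι), 1 ≤ B → (∀ u v, |A u v| ≤ B) →
    |haf A L| ≤ L.length.factorial * B ^ L.length) ∧
  (∀ (ι : Type) (A A' : ι → ι → ℝ) (B η : ℝ) (L : List ι), 1 ≤ B → 0 ≤ η → (∀ u v, |A u v| ≤ B) →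
    (∀ u v, |A' u v| ≤ B) → (∀ u v, |A u v - A' u v| ≤ η) →
    |haf A L - haf A' L| ≤ L.length * L.length.factorial * B ^ L.length * η) ∧
  (∀ (ι : Type) (A : ι → ι → ℝ) (c : ℝ) (m : ℕ) (L : List ι), L.length = 2 * m →
    haf (fun u v => c * A u v) L = c ^ m * haf A L) ∧
  (∀ k : ℕ, (legs k).length = 2 * k) ∧
  (∀ (k : ℕ) (A A' : Fin k × Bool → Fin k × Bool → ℝ) (B η : ℝ), 1 ≤ B → 0 ≤ η →
    (∀ u v, u.1 ≠ v.1 → |A u v| ≤ B) → (∀ u v, u.1 ≠ v.1 → |A' u v| ≤ B) →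
    (∀ u v, u.1 ≠ v.1 → |A u v - A' u v| ≤ η) →
    |wick k A - wick k A'| ≤ (2 * k) * (2 * k).factorial * B ^ (2 * k) * η) ∧
  (∀ (k : ℕ) (A : Fin k × Bool → Fin k × Bool → ℝ) (c : ℝ),
    wick k (fun u v => c * A u v) = c ^ k * wick k A) ∧
  (∀ (k : ℕ) (A A' : Fin k × Bool → Fin k × Bool → ℝ), (∀ u v, u.1 ≠ v.1 → A u v = A' u v) →
    wick k A = wick k A')

end

end Pool.Agent.W793.SCH
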