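import Mathlib
import Pool.Agent.W793.SCH.Stm

/-!
# Statements for the k-point functions: the covariance on the torus
-/

namespace Pool.Agent.W793.SCH

noncomputable section

variable {d l : ℕ} [NeZero l]

/-- sites of the torus -/
abbrev St (d l : ℕ) := Fin d → ZMod l

/-- unit vector -/
def eT {D l : ℕ} (μ : Fin D) : Fin D → ZMod l := Pi.single μ 1

/-- forward difference -/
def Dp (i : Fin d) (f : St d l → ℝ) : St d l → ℝ := fun x => f (x + eT i) - f x

/-- backward difference, the adjoint of the forward difference -/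
def Dm (i : Fin d) (f : St d l → ℝ) : St d l → ℝ := fun x => f (x - eT i) - f x

/-- scalar product -/
def ip2 (f g : St d l → ℝ) : ℝ := ∑ x, f x * g x

/-- two forms: all components -/
abbrev Fm (d l : ℕ) := Fin d → Fin d → St d l → ℝ

/-- exterior derivative of a one form -/
def d1 (a : Fin d → St d l → ℝ) : Fm d l := fun j k => Dp j (a k) - Dp k (a j)

/-- the adjoint -/
def ds2 (f : Fm d l) : Fin d → St d l → ℝ := fun k => ∑ j, Dm j (f j k)

/-- minus the Laplace operator -/
def lap (f : St d l → ℝ) : St d l → ℝ := ∑ i, Dm i (Dp i f)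

/-- scalar product of forms -/
def ipF (f g : Fm d l) : ℝ := 1 / 2 * ∑ j, ∑ k, ip2 (f j k) (g j k)

/-- one step of the lazy walk -/
def Pl (f : St d l → ℝ) : St d l → ℝ := f - (1 / (4 * d) : ℝ) • lap f

/-- `k` steps of the lazy walk -/
def Plk (k : ℕ) (f : St d l → ℝ) : St d l → ℝ := Pl^[k] f

/-- the potential -/
def uK (K : ℕ) (f : St d l → ℝ) : St d l → ℝ :=
  (1 / (4 * d) : ℝ) • ∑ k ∈ Finset.range K, Plk k f

/-- the projection to the exact forms, up to the truncation at `K` -/
def TK (K : ℕ) (f : Fm d l) : Fm d l := d1 (ds2 fun j k => uK K (f j k))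

/-- the elementary antisymmetric two-form -/
def el (j k : Fin d) (y : St d l) : Fm d l := fun a b x =>
  (if a = j ∧ b = k ∧ x = y then 1 else 0) - (if a = k ∧ b = j ∧ x = y then 1 else 0)

/-- The walk on the torus before it closes up. -/
def S_B1 : Prop := ∀ (d l k : ℕ) [NeZero l], 1 ≤ d → ∀ z : Fin d → ℤ, (∀ i, |z i| + k < l) →
  Plk k (fun x : St d l => if x = 0 then (1 : ℝ) else 0) (fun i => (z i : ZMod l)) = pk d k z

/-- The covariance of the field strength on the torus. -/
def S_B2 : Prop := ∀ (d l K : ℕ) [NeZero l], 1 ≤ d → ∀ (j k a b : Fin d) (y y' : Fin d → ℤ),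
  (∀ i, |y i - y' i| + 2 * K + 2 < l) →
    ipF (TK K (el j k fun i => (y i : ZMod l))) (TK K (el a b fun i => (y' i : ZMod l))) =
      mx (fun p q => DD p q (gK d K) (y - y')) j k a b

end

end Pool.Agent.W793.SCH
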