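import Mathlib
import Pool.Agent.W793.SCH.Stm

/-!
# Statements for the k-point functions: Gaussian moments
-/

open MeasureTheory

namespace Pool.Agent.W793.SCH

noncomputable section

/-- Gaussian vectors and the theorem of Isserlis (Wick). -/
def S_ISS : Prop := ∀ p : ℕ, ∃ C : ℝ, 0 < C ∧ ∀ (ι : Type) [Fintype ι] [DecidableEq ι]
  (A : ι → ι → ℝ), (∀ l l', A l l' = A l' l) → (∀ s : ι → ℝ, 0 ≤ ∑ l, ∑ l', s l * s l' * A l l') →
  ∃ P : Measure (ι → ℝ), IsProbabilityMeasure P ∧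
    (∀ s : ι → ℝ, ∫ y, Real.cos (∑ l, s l * y l) ∂P =
      Real.exp (-(1 / 2 * ∑ l, ∑ l', s l * s l' * A l l'))) ∧
    (∀ s : ι → ℝ, ∫ y, Real.sin (∑ l, s l * y l) ∂P = 0) ∧
    (∀ (l : ι) (j : ℕ), j ≤ p → Integrable (fun y : ι → ℝ => |y l| ^ j) P ∧
      ∫ y, |y l| ^ j ∂P ≤ C * (1 + A l l) ^ j) ∧
    ∀ L : List ι, L.length ≤ p → Integrable (fun y : ι → ℝ => (L.map y).prod) P ∧
      ∫ y, (L.map y).prod ∂P = haf A L

end

end Pool.Agent.W793.SCH
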