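import Mathlib
import Pool.Agent.W793.SCH.Stm
import Pool.Agent.W793.SCH.Stm2
import Pool.Agent.W793.SCH.Stm3
import Pool.Agent.W793.SCH.Stm4
import Pool.Agent.W233.SCH.HAF
import Pool.Agent.W933.SCH.ISS
import Pool.Agent.W270.SCH.W2
import Pool.Agent.W374.SCH.GI
import Pool.Agent.W778.SCH.W1
import Pool.Agent.W314.SCH.B2
import Pool.Agent.W141.SCH.TR
import Pool.Agent.W453.SCH.HB
import Pool.Agent.W585.SCH.B1
import Pool.Agent.W252.SCH.SUP
import Pool.Agent.W557.SCH.FR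
import Pool.Agent.W750.SCH.GG
import Pool.Agent.W446.SCH.HL
import Pool.Agent.W75.SCH.WC
import Pool.Agent.W369.SCH.KER

/-!
# The proved statements
-/

namespace Pool.Agent.W793.SCH

theorem a_WC : S_WC := Pool.Agent.W75.SCH.t_WC (Pool.Agent.W778.SCH.W1.t_W1 Pool.Agent.W933.SCH.t_ISS)
  Pool.Agent.W270.SCH.t_W2

theorem a_B2 : S_B2 := Pool.Agent.W314.SCH.t_B2 Pool.Agent.W585.SCH.t_B1

theorem a_SUP : S_SUP := Pool.Agent.W252.SCH.t_SUP Pool.Agent.W557.SCH.t_FR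

theorem a_TR : S_TR := Pool.Agent.W141.SCH.t_TR a_SUP

theorem a_HAF : S_HAF := Pool.Agent.W233.SCH.HAF.t_HAF

theorem a_GI : S_GI := Pool.Agent.W374.SCH.t_GI Pool.Agent.W557.SCH.t_FR a_SUP

theorem a_KER : S_KER := Pool.Agent.W369.SCH.t_KER a_GI Pool.Agent.W453.SCH.t_HB
  Pool.Agent.W446.SCH.t_HL Pool.Agent.W750.SCH.t_GG

end Pool.Agent.W793.SCH
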