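import Mathlib
import Pool.Agent.W793.YM.TorExp

/-!
# Moments of the plaquette energies of all orders
-/

open MeasureTheory Matrix Pool.Agent.H906R3.YM Pool.Agent.W793.YM

namespace Pool.Agent.W793.SCH

set_option linter.unusedSectionVars false

noncomputable section

/-- the elementary inequality behind the moment bound -/
lemma pow_le_exp {y a : ℝ} (hy : 0 ≤ y) (ha : 1 ≤ a) (r j : ℕ) :
    y ^ r ≤ a + (r * (j + 1)).factorial * (a ^ j)⁻¹ * Real.exp y := by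
  have ha0 : 0 < a := by linarith
  have hpos : 0 ≤ (r * (j + 1)).factorial * (a ^ j)⁻¹ * Real.exp y := by positivity
  rcases le_total (y ^ r) a with h | h
  · linarith
  · have h1 : y ^ r * a ^ j ≤ (y ^ r) ^ (j + 1) := by
      rw [pow_succ, mul_comm]
      exact mul_le_mul_of_nonneg_right (pow_le_pow_left₀ ha0.le h j) (by positivity)
    have h2 : (y ^ r) ^ (j + 1) ≤ (r * (j + 1)).factorial * Real.exp y := by
      have := Real.pow_div_factorial_le_exp y hy (r * (j + 1))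
      rw [div_le_iff₀ (by positivity)] at this
      rw [← pow_mul]
      linarith
    have h3 : y ^ r ≤ (r * (j + 1)).factorial * Real.exp y / a ^ j := by
      rw [le_div_iff₀ (by positivity)]
      exact h1.trans h2
    have h4 : (r * (j + 1)).factorial * Real.exp y / a ^ j =
        (r * (j + 1)).factorial * (a ^ j)⁻¹ * Real.exp y := by
      field_simp
    rw [h4] at h3
    linarith

variable {G : Type*} [Group G] [TopologicalSpace G] [IsTopologicalGroup G] [CompactSpace G]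
  [SecondCountableTopology G] [MeasurableSpace G] [BorelSpace G] (μ : Measure G)
  [IsProbabilityMeasure μ] [μ.IsMulLeftInvariant] [μ.IsMulRightInvariant] [μ.IsInvInvariant]
  {N n : ℕ} {L : LD G N n}

theorem moment2 (r e : ℕ) : ∃ C : ℝ, 0 < C ∧ ∀ b : ℝ, 1 ≤ b → ∀ a : ℝ, 1 ≤ a → b ≤ (2 * a) ^ e →
    ∀ (E : Type) [Fintype E] [DecidableEq E]
    (T : Refl E) (w : (E → G) → ℝ), Continuous w → Dep T.R w → (∀ U, 0 ≤ w U) → ∀ e ∈ T.J,
      T.Ew μ L (b ^ 4) w (fun U => (b ^ 4 * we L (T.W U e)) ^ r) ≤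
        C * a * T.Ew μ L (b ^ 4) w (fun _ => 1) := by
  obtain ⟨c, hc, hcz⟩ := zz_lower μ (L := L)
  obtain ⟨q, hq⟩ : ∃ q, q = 4 * N ^ 2 := ⟨_, rfl⟩
  obtain ⟨j, hj⟩ : ∃ j, j = e * q := ⟨_, rfl⟩
  refine ⟨1 + (r * (j + 1)).factorial * 2 ^ j / c, by positivity,
    fun b hb a ha hba E _ _ T w hw hd hw0 e' he => ?_⟩
  have hb0 : 0 < b := by linarith
  have ha0 : 0 < a := by linarith
  have hWc : Continuous fun U : E → G => we L (T.W U e') := we_cont.comp (cont_W T e')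
  have hexpc : Continuous fun U : E → G => Real.exp (b ^ 4 * we L (T.W U e')) :=
    Real.continuous_exp.comp (continuous_const.mul hWc)
  have h1 : T.Ew μ L (b ^ 4) w (fun U => (b ^ 4 * we L (T.W U e')) ^ r) ≤
      T.Ew μ L (b ^ 4) w (fun U => (fun _ => a) U + ((r * (j + 1)).factorial * (a ^ j)⁻¹) *
        Real.exp (b ^ 4 * we L (T.W U e'))) := by
    refine T.Ew_mono μ hw hw0 ((continuous_const.mul hWc).pow r)
      (continuous_const.add (continuous_const.mul hexpc)) fun U => ?_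
    exact pow_le_exp (mul_nonneg (by positivity) (we_nonneg _)) ha r j
  have hadd := T.Ew_add μ (L := L) (β := b ^ 4) hw (F := fun _ => a)
    (H := fun U => ((r * (j + 1)).factorial * (a ^ j)⁻¹) * Real.exp (b ^ 4 * we L (T.W U e')))
    continuous_const (continuous_const.mul hexpc)
  rw [hadd, T.Ew_smul μ] at h1
  have hca : T.Ew μ L (b ^ 4) w (fun _ => a) = a * T.Ew μ L (b ^ 4) w (fun _ => 1) := by
    rw [← T.Ew_smul μ (L := L) (F := fun _ => (1:ℝ)) a]
    simp only [mul_one]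
  rw [hca] at h1
  refine h1.trans ?_
  have h2 := T.expm μ (L := L) (by positivity : (0:ℝ) ≤ b ^ 4) hw hd hw0 he
  have hE1 : 0 ≤ T.Ew μ L (b ^ 4) w (fun U => Real.exp (b ^ 4 * we L (T.W U e'))) := by
    unfold Refl.Ew
    refine integral_nonneg fun U => ?_
    exact mul_nonneg (Real.exp_pos _).le
      (mul_nonneg (mul_nonneg (hw0 _) (hw0 _)) (Real.exp_pos _).le)
  have h3 := hcz b hb
  have h4 : c * T.Ew μ L (b ^ 4) w (fun U => Real.exp (b ^ 4 * we L (T.W U e'))) ≤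
      b ^ (4 * N ^ 2) * T.Ew μ L (b ^ 4) w (fun _ => 1) := by
    calc c * T.Ew μ L (b ^ 4) w (fun U => Real.exp (b ^ 4 * we L (T.W U e'))) ≤
        (zz μ L (b ^ 4) * b ^ (4 * N ^ 2)) *
          T.Ew μ L (b ^ 4) w (fun U => Real.exp (b ^ 4 * we L (T.W U e'))) :=
          mul_le_mul_of_nonneg_right h3 hE1
      _ = b ^ (4 * N ^ 2) * (zz μ L (b ^ 4) *
          T.Ew μ L (b ^ 4) w (fun U => Real.exp (b ^ 4 * we L (T.W U e')))) := by ring
      _ ≤ _ := mul_le_mul_of_nonneg_left h2 (by positivity)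
  have hE0 : 0 ≤ T.Ew μ L (b ^ 4) w (fun _ => 1) := by
    unfold Refl.Ew
    refine integral_nonneg fun U => ?_
    exact mul_nonneg zero_le_one
      (mul_nonneg (mul_nonneg (hw0 _) (hw0 _)) (Real.exp_pos _).le)
  have h5 : (a ^ j)⁻¹ * b ^ (4 * N ^ 2) ≤ 2 ^ j := by
    have e1 : b ^ (4 * N ^ 2) ≤ (2 * a) ^ j := by
      rw [← hq, hj, pow_mul]
      exact pow_le_pow_left₀ hb0.le hba q
    calc (a ^ j)⁻¹ * b ^ (4 * N ^ 2) ≤ (a ^ j)⁻¹ * (2 * a) ^ j :=
          mul_le_mul_of_nonneg_left e1 (by positivity)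
      _ = 2 ^ j := by
          rw [mul_pow]; field_simp
  have h6 : (a ^ j)⁻¹ * T.Ew μ L (b ^ 4) w (fun U => Real.exp (b ^ 4 * we L (T.W U e'))) ≤
      2 ^ j / c * T.Ew μ L (b ^ 4) w (fun _ => 1) := by
    rw [div_mul_eq_mul_div, le_div_iff₀ hc]
    calc (a ^ j)⁻¹ * T.Ew μ L (b ^ 4) w (fun U => Real.exp (b ^ 4 * we L (T.W U e'))) * c =
        (a ^ j)⁻¹ * (c * T.Ew μ L (b ^ 4) w (fun U => Real.exp (b ^ 4 * we L (T.W U e')))) := by
          ring
      _ ≤ (a ^ j)⁻¹ * (b ^ (4 * N ^ 2) * T.Ew μ L (b ^ 4) w (fun _ => 1)) :=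
          mul_le_mul_of_nonneg_left h4 (by positivity)
      _ = ((a ^ j)⁻¹ * b ^ (4 * N ^ 2)) * T.Ew μ L (b ^ 4) w (fun _ => 1) := by ring
      _ ≤ 2 ^ j * T.Ew μ L (b ^ 4) w (fun _ => 1) := mul_le_mul_of_nonneg_right h5 hE0
  obtain ⟨Z, hZ⟩ : ∃ Z, Z = T.Ew μ L (b ^ 4) w (fun _ => (1:ℝ)) := ⟨_, rfl⟩
  rw [← hZ] at h6 hE0 ⊢
  have h7 := mul_le_mul_of_nonneg_left h6 (by positivity : (0:ℝ) ≤ (r * (j + 1)).factorial)
  have h8 : ((r * (j + 1)).factorial : ℝ) * (2 ^ j / c * Z) ≤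
      (r * (j + 1)).factorial * 2 ^ j / c * a * Z := by
    have : ((r * (j + 1)).factorial : ℝ) * (2 ^ j / c * Z) =
      ((r * (j + 1)).factorial * 2 ^ j / c) * Z := by ring
    rw [this]
    refine mul_le_mul_of_nonneg_right ?_ hE0
    exact le_mul_of_one_le_right (by positivity) ha
  calc a * Z + (r * (j + 1)).factorial * (a ^ j)⁻¹ *
        T.Ew μ L (b ^ 4) w (fun U => Real.exp (b ^ 4 * we L (T.W U e'))) =
      a * Z + (r * (j + 1)).factorial * ((a ^ j)⁻¹ *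
        T.Ew μ L (b ^ 4) w (fun U => Real.exp (b ^ 4 * we L (T.W U e')))) := by ring
    _ ≤ a * Z + (r * (j + 1)).factorial * 2 ^ j / c * a * Z := by linarith
    _ = _ := by ring

/-- moments of the plaquette energies on the torus -/
theorem plaq_moment2 (r e : ℕ) : ∃ C : ℝ, 0 < C ∧ ∀ b : ℝ, 1 ≤ b → ∀ a : ℝ, 1 ≤ a →
    b ≤ (2 * a) ^ e → ∀ (d m : ℕ) [NeZero m], 2 ≤ m →
    ∀ (x : Fin d → ZMod (2 * m)) (i j : Fin d), i ≠ j →
      Zt μ L (b ^ 4) (fun U : Ed d (2 * m) → G => (b ^ 4 * we L (plqT U x i j)) ^ r) ≤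
        C * a * Zt μ L (b ^ 4) (fun _ : Ed d (2 * m) → G => 1) := by
  obtain ⟨C, hC, h⟩ := moment2 μ (L := L) r e
  refine ⟨C, hC, fun b hb a ha hba d m _ hm x i j hij => ?_⟩
  have h0 : Zt μ L (b ^ 4) (fun U : Ed d (2 * m) → G => (b ^ 4 * we L (plqT U x i j)) ^ r) =
      Zt μ L (b ^ 4) (fun U : Ed d (2 * m) → G => (b ^ 4 * we L (plqT U 0 i j)) ^ r) := by
    rw [← Zt_tr μ _ x (fun U : Ed d (2 * m) → G => (b ^ 4 * we L (plqT U 0 i j)) ^ r)]
    simp only [plqT_tr, zero_add]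
  rw [h0]
  obtain ⟨c, hc, hred⟩ := Zt_red μ (L := L) hm j (b ^ 4)
  have hcont : Continuous fun U : Ed d (2 * m) → G => (b ^ 4 * we L (plqT U 0 i j)) ^ r :=
    (continuous_const.mul (Sm_cont ⟨_, we_mem (L := L) 0 i j⟩)).pow r
  have hgi : GI fun U : Ed d (2 * m) → G => (b ^ 4 * we L (plqT U 0 i j)) ^ r := fun γ U => by
    show (b ^ 4 * we L (plqT (gt γ U) 0 i j)) ^ r = _
    rw [plqT_gt, we_conj]
  have hgi1 : GI fun _ : Ed d (2 * m) → G => (1 : ℝ) := fun γ U => rfl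
  rw [hred _ hcont hgi, hred _ continuous_const hgi1]
  have hJ : ((0 + eT j : Fin d → ZMod (2 * m)), i) ∈ (TR hm j).J := by
    show _ ∈ Finset.univ.filter _
    rw [Finset.mem_filter]
    refine ⟨Finset.mem_univ _, hij, Or.inl ?_⟩
    simp only [add_same, Pi.zero_apply, zero_add]
  have h1 := h b hb a ha hba _ (TR hm j) (wR L (b ^ 4) m j).1 (Sm_cont _) (wR_dep hm _ _)
    (wR_nonneg _ _) _ hJ
  have h2 : (fun U : Ed d (2 * m) → G => (b ^ 4 * we L (plqT (fix j U) 0 i j)) ^ r) = fun U =>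
      (b ^ 4 * we L ((TR hm j).W U ((0 + eT j : Fin d → ZMod (2 * m)), i))) ^ r := by
    funext U
    congr 2
    have h3 : plqT (fix j U) 0 i j =
        ((TR hm j).W U ((0 + eT j : Fin d → ZMod (2 * m)), i))⁻¹ := by
      have h5 : rB j (0 : Fin d → ZMod (2 * m)) = 0 := by
        unfold rB
        simp
      have h4 : (TR hm j).W U ((0 + eT j : Fin d → ZMod (2 * m)), i) =
          U (0 + eT j, i) * (U (rA j (0 + eT j), i))⁻¹ := by
        unfold Refl.W TR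
        simp [hij]
      rw [h4, rA_eq', h5]
      unfold plqT
      rw [fix_i0' U 0 (Or.inl rfl), fix_i0' U _ (Or.inl (add_ne 0 hij)),
        fix_ne _ _ hij, fix_ne _ _ hij]
      group
    rw [h3, we_inv]
  rw [h2]
  calc c * (TR hm j).Ew μ L (b ^ 4) (wR L (b ^ 4) m j).1
        (fun U => (b ^ 4 * we L ((TR hm j).W U ((0 + eT j : Fin d → ZMod (2 * m)), i))) ^ r) ≤
      c * (C * a * (TR hm j).Ew μ L (b ^ 4) (wR L (b ^ 4) m j).1 (fun _ => 1)) :=
        mul_le_mul_of_nonneg_left h1 hc.le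
    _ = _ := by ring

end

end Pool.Agent.W793.SCH
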