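import Mathlib
import Pool.Agent.W793.YM.Rebase
import Pool.Agent.W793.SCH.Mom2
import Pool.Agent.W793.SCH.Stm
import Pool.Agent.W793.SCH.Stm2

/-!
# Characteristic functional of finitely many components of the field strength
-/

open MeasureTheory Matrix Pool.Agent.H906R3.YM Pool.Agent.W793.YM
open Pool.Agent.W793.SCH (haf legs wick Near pk gK DD mx el TK S_B1 S_B2 green)

namespace Pool.Agent.W793.SCHL

set_option linter.unusedSectionVars false
set_option linter.unusedVariables false

noncomputable section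

variable {G : Type*} [Group G] [TopologicalSpace G] [IsTopologicalGroup G] [CompactSpace G]
  [SecondCountableTopology G] [MeasurableSpace G] [BorelSpace G] (μ : Measure G)
  [IsProbabilityMeasure μ] [μ.IsMulLeftInvariant] [μ.IsMulRightInvariant] [μ.IsInvInvariant]
  {N n : ℕ} {L : LD G N n} {d l : ℕ} [NeZero l]

section prob

variable (L) in
/-- the Gibbs measure -/
def PT (β : ℝ) : Measure (Ed d l → G) := (ME μ (Ed d l)).tilted fun U => -(β * act L U)

lemma wt_int (β : ℝ) : Integrable (fun U : Ed d l → G => Real.exp (-(β * act L U)))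
    (ME μ (Ed d l)) :=
  (wt_contT (L := L) β).integrable_of_hasCompactSupport (HasCompactSupport.of_compactSpace _)

lemma PT_prob (β : ℝ) : IsProbabilityMeasure (PT μ L β : Measure (Ed d l → G)) :=
  isProbabilityMeasure_tilted (wt_int μ β)

lemma EX_int (β : ℝ) (F : (Ed d l → G) → ℝ) : EX μ L β F = ∫ U, F U ∂(PT μ L β) := by
  unfold PT EX Zt
  rw [integral_tilted, ← integral_div]
  refine integral_congr_ae (Filter.Eventually.of_forall fun U => ?_)
  simp only [smul_eq_mul, one_mul]
  ring

end prob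

section forms

lemma ipF_el {g : Fm d l} (hg : Asy g) (j k : Fin d) (y : St d l) : ipF (el j k y) g = g j k y := by
  classical
  have h1 : ∀ a b : Fin d, ip2 (el j k y a b) (g a b) =
      (if a = j ∧ b = k then g j k y else 0) - (if a = k ∧ b = j then g k j y else 0) := by
    intro a b
    unfold ip2 el
    simp only [sub_mul, Finset.sum_sub_distrib]
    congr 1
    · by_cases h : a = j ∧ b = k
      · obtain ⟨rfl, rfl⟩ := h
        simp
      · rw [if_neg h]
        refine Finset.sum_eq_zero fun x _ => ?_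
        rw [if_neg (fun hc => h ⟨hc.1, hc.2.1⟩), zero_mul]
    · by_cases h : a = k ∧ b = j
      · obtain ⟨rfl, rfl⟩ := h
        simp
      · rw [if_neg h]
        refine Finset.sum_eq_zero fun x _ => ?_
        rw [if_neg (fun hc => h ⟨hc.1, hc.2.1⟩), zero_mul]
  unfold ipF
  simp only [h1, Finset.sum_sub_distrib]
  have h2 : ∀ (p q : Fin d) (v : ℝ), ∑ a : Fin d, ∑ b : Fin d, (if a = p ∧ b = q then v else 0) = v := by
    intro p q v
    rw [Finset.sum_eq_single p]
    · rw [Finset.sum_eq_single q]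
      · simp
      · intro b _ hb; rw [if_neg (fun hc => hb hc.2)]
      · intro h; exact absurd (Finset.mem_univ _) h
    · intro a _ ha
      exact Finset.sum_eq_zero fun b _ => if_neg (fun hc => ha hc.1)
    · intro h; exact absurd (Finset.mem_univ _) h
  rw [h2, h2]
  have h3 := congrFun (hg k j) y
  rw [Pi.neg_apply] at h3
  rw [h3]; ring

lemma el_asy (j k : Fin d) (y : St d l) : Asy (el j k y) := by
  intro a b
  funext x
  rw [Pi.neg_apply]
  unfold el
  have e1 : (b = j ∧ a = k ∧ x = y) ↔ (a = k ∧ b = j ∧ x = y) := by tauto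
  have e2 : (b = k ∧ a = j ∧ x = y) ↔ (a = j ∧ b = k ∧ x = y) := by tauto
  simp only [e1, e2]
  ring

lemma asy_sum {ι : Type*} (s : Finset ι) (c : ι → ℝ) (f : ι → Fm d l) (hf : ∀ i ∈ s, Asy (f i)) :
    Asy (∑ i ∈ s, c i • f i) := by
  intro j k
  rw [Finset.sum_apply, Finset.sum_apply, Finset.sum_apply, Finset.sum_apply,
    ← Finset.sum_neg_distrib]
  refine Finset.sum_congr rfl fun i hi => ?_
  simp only [Pi.smul_apply]
  rw [hf i hi j k, smul_neg]

end forms

section legs

variable {k : ℕ}

/-- the test form of a combination of legs: `pl` the planes, `y` the points, `a` the colours -/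
def tf (pl : Fin k × Bool → Fin d × Fin d) (y : Fin k → St d l) (a : Fin k → Fin n)
    (s : Fin k × Bool → ℝ) : Fin n → Fm d l := fun α =>
  ∑ u : Fin k × Bool, (if a u.1 = α then s u else 0) • el (pl u).1 (pl u).2 (y u.1)

lemma tf_asy (pl : Fin k × Bool → Fin d × Fin d) (y : Fin k → St d l) (a : Fin k → Fin n)
    (s : Fin k × Bool → ℝ) (α : Fin n) : Asy (tf pl y a s α) :=
  asy_sum _ _ _ fun u _ => el_asy _ _ _

lemma Fs_tf (pl : Fin k × Bool → Fin d × Fin d) (y : Fin k → St d l) (a : Fin k → Fin n)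
    (s : Fin k × Bool → ℝ) (U : Ed d l → G) :
    Fs L (tf pl y a s) U = ∑ u, s u * Fz L U (a u.1) (pl u).1 (pl u).2 (y u.1) := by
  classical
  unfold Fs tf
  simp only [ipF_sum_left, ipF_smul_left]
  rw [Finset.sum_comm]
  refine Finset.sum_congr rfl fun u _ => ?_
  rw [Finset.sum_eq_single (a u.1)]
  · rw [if_pos rfl, ipF_el (Fz_asy U _)]
  · intro α _ hα
    rw [if_neg (fun h => hα h.symm), zero_mul]
  · intro h; exact absurd (Finset.mem_univ _) h

/-- the covariance of the legs -/
def cv (K : ℕ) (pl : Fin k × Bool → Fin d × Fin d) (y : Fin k → St d l) (a : Fin k → Fin n)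
    (u v : Fin k × Bool) : ℝ :=
  if a u.1 = a v.1 then ipF (TL K (el (pl u).1 (pl u).2 (y u.1)))
    (TL K (el (pl v).1 (pl v).2 (y v.1))) else 0

lemma vK_tf (K : ℕ) (pl : Fin k × Bool → Fin d × Fin d) (y : Fin k → St d l) (a : Fin k → Fin n)
    (s : Fin k × Bool → ℝ) :
    vK K (tf pl y a s) = ∑ u, ∑ v, s u * s v * cv K pl y a u v := by
  classical
  rw [vK_eq]
  unfold tf
  simp only [map_sum, map_smul, ipF_sum_left, ipF_sum_right, ipF_smul_left, ipF_smul_right]
  rw [Finset.sum_comm]
  refine Finset.sum_congr rfl fun u _ => ?_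
  simp only [Finset.mul_sum]
  rw [Finset.sum_comm]
  refine Finset.sum_congr rfl fun v _ => ?_
  unfold cv
  rw [Finset.sum_eq_single (a u.1)]
  · rw [if_pos rfl, ipF_comm]
    by_cases h : a u.1 = a v.1
    · rw [if_pos h, if_pos h.symm]; ring
    · rw [if_neg h, if_neg (fun hc => h hc.symm)]; ring
  · intro α _ hα
    rw [if_neg (fun h => hα h.symm)]; ring
  · intro h; exact absurd (Finset.mem_univ _) h

lemma swap4 {A B C D : Type*} [Fintype A] [Fintype B] [Fintype C] [Fintype D]
    (F : A → B → C → D → ℝ) : ∑ p, ∑ q, ∑ x, ∑ u, F p q x u = ∑ u, ∑ p, ∑ q, ∑ x, F p q x u :=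
  (Finset.sum_congr rfl fun p _ => (Finset.sum_congr rfl fun q _ => Finset.sum_comm).trans
    Finset.sum_comm).trans Finset.sum_comm

lemma N1_tf (pl : Fin k × Bool → Fin d × Fin d) (y : Fin k → St d l) (a : Fin k → Fin n)
    (s : Fin k × Bool → ℝ) (hs : ∀ u, |s u| ≤ 1) : N1 (tf pl y a s) ≤ 4 * k := by
  classical
  have h0 : ∀ (j k' : Fin d) (y : St d l), ∑ p : Fin d, ∑ q : Fin d, ∑ x, |el j k' y p q x| ≤ 2 := by
    intro j k' y
    have h1 : ∀ p q x, |el j k' y p q x| ≤ (if p = j ∧ q = k' ∧ x = y then 1 else 0) +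
        (if p = k' ∧ q = j ∧ x = y then (1:ℝ) else 0) := by
      intro p q x
      unfold el
      refine (abs_sub _ _).trans (le_of_eq ?_)
      congr 1 <;> (split_ifs <;> simp)
    have h2 : ∀ (j k' : Fin d), ∑ p : Fin d, ∑ q : Fin d, ∑ x : St d l,
        (if p = j ∧ q = k' ∧ x = y then (1:ℝ) else 0) = 1 := by
      intro j k'
      rw [Finset.sum_eq_single j]
      · rw [Finset.sum_eq_single k']
        · rw [Finset.sum_eq_single y]
          · simp
          · intro x _ hx; rw [if_neg (fun hc => hx hc.2.2)]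
          · intro h; exact absurd (Finset.mem_univ _) h
        · intro q _ hq
          exact Finset.sum_eq_zero fun x _ => if_neg (fun hc => hq hc.2.1)
        · intro h; exact absurd (Finset.mem_univ _) h
      · intro p _ hp
        exact Finset.sum_eq_zero fun q _ => Finset.sum_eq_zero fun x _ => if_neg (fun hc => hp hc.1)
      · intro h; exact absurd (Finset.mem_univ _) h
    calc ∑ p : Fin d, ∑ q : Fin d, ∑ x, |el j k' y p q x| ≤ ∑ p : Fin d, ∑ q : Fin d, ∑ x,
          ((if p = j ∧ q = k' ∧ x = y then (1:ℝ) else 0) + (if p = k' ∧ q = j ∧ x = y then (1:ℝ) else 0)) :=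
          Finset.sum_le_sum fun p _ => Finset.sum_le_sum fun q _ => Finset.sum_le_sum fun x _ => h1 p q x
      _ = 2 := by
          simp only [Finset.sum_add_distrib]
          rw [h2 j k', h2 k' j]; norm_num
  unfold N1 tf
  have h3 : ∀ (α : Fin n) (p q : Fin d) (x : St d l),
      |(∑ u : Fin k × Bool, (if a u.1 = α then s u else 0) • el (pl u).1 (pl u).2 (y u.1)) p q x| ≤
        ∑ u : Fin k × Bool, (if a u.1 = α then 1 else 0) * |el (pl u).1 (pl u).2 (y u.1) p q x| := by
    intro α p q x
    rw [Finset.sum_apply, Finset.sum_apply, Finset.sum_apply]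
    refine (Finset.abs_sum_le_sum_abs _ _).trans (Finset.sum_le_sum fun u _ => ?_)
    simp only [Pi.smul_apply, smul_eq_mul]
    rw [abs_mul]
    refine mul_le_mul_of_nonneg_right ?_ (abs_nonneg _)
    split_ifs
    · exact hs u
    · simp
  calc _ ≤ ∑ α : Fin n, ∑ p : Fin d, ∑ q : Fin d, ∑ x : St d l, ∑ u : Fin k × Bool,
        (if a u.1 = α then 1 else 0) * |el (pl u).1 (pl u).2 (y u.1) p q x| :=
        Finset.sum_le_sum fun α _ => Finset.sum_le_sum fun p _ => Finset.sum_le_sum fun q _ =>
          Finset.sum_le_sum fun x _ => h3 α p q x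
    _ = ∑ u : Fin k × Bool, ∑ α : Fin n, (if a u.1 = α then 1 else 0) *
        ∑ p : Fin d, ∑ q : Fin d, ∑ x : St d l, |el (pl u).1 (pl u).2 (y u.1) p q x| := by
        have e1 : ∀ α : Fin n, ∑ p : Fin d, ∑ q : Fin d, ∑ x : St d l, ∑ u : Fin k × Bool,
            (if a u.1 = α then (1:ℝ) else 0) * |el (pl u).1 (pl u).2 (y u.1) p q x| =
            ∑ u : Fin k × Bool, (if a u.1 = α then 1 else 0) *
              ∑ p : Fin d, ∑ q : Fin d, ∑ x : St d l, |el (pl u).1 (pl u).2 (y u.1) p q x| := by
          intro α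
          rw [swap4]
          simp only [Finset.mul_sum]
        simp only [e1]
        rw [Finset.sum_comm]
    _ ≤ ∑ u : Fin k × Bool, (2:ℝ) := by
        refine Finset.sum_le_sum fun u _ => ?_
        rw [← Finset.sum_mul, Finset.sum_ite_eq, if_pos (Finset.mem_univ _), one_mul]
        exact h0 _ _ _
    _ = 4 * k := by
        rw [Finset.sum_const, Finset.card_univ, Fintype.card_prod, Fintype.card_fin,
          Fintype.card_bool, nsmul_eq_mul]
        push_cast; ring

end legs

end

end Pool.Agent.W793.SCHL
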