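import Mathlib
import Pool.Agent.W793.SCH.Lift

/-!
# Hypotheses of the abstract theorem for the field strength of lattice Yang-Mills
-/

open MeasureTheory Matrix Pool.Agent.H906R3.YM Pool.Agent.W793.YM
open Pool.Agent.W793.SCH (haf legs wick Near pk gK DD mx el TK S_B1 S_B2 S_TR S_WC green
  plaq_moment2)

namespace Pool.Agent.W793.SCHL

set_option linter.unusedSectionVars false
set_option linter.unusedVariables false

noncomputable section

variable {G : Type*} [Group G] [TopologicalSpace G] [IsTopologicalGroup G] [CompactSpace G]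
  [SecondCountableTopology G] [MeasurableSpace G] [BorelSpace G] (μ : Measure G)
  [IsProbabilityMeasure μ] [μ.IsMulLeftInvariant] [μ.IsMulRightInvariant] [μ.IsInvInvariant]
  {N n : ℕ} {L : LD G N n} {d l : ℕ} [NeZero l] {k : ℕ}

lemma tf_SW {pl : Fin k × Bool → Fin d × Fin d} {y : Fin k → St d l} {a : Fin k → Fin n}
    {s : Fin k × Bool → ℝ} {lo hi : ℕ} (hy : ∀ r i, lo ≤ wv (y r) i ∧ wv (y r) i < hi)
    (α : Fin n) (p q : Fin d) : SW lo hi (tf pl y a s α p q) := by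
  classical
  intro x hx i
  by_contra hc
  apply hx
  unfold tf
  rw [Finset.sum_apply, Finset.sum_apply, Finset.sum_apply]
  refine Finset.sum_eq_zero fun u _ => ?_
  simp only [Pi.smul_apply, smul_eq_mul]
  have h1 : x ≠ y u.1 := by
    rintro rfl
    exact hc (hy u.1 i)
  have h2 : el (pl u).1 (pl u).2 (y u.1) p q x = 0 := by
    unfold el
    rw [if_neg (fun h => h1 h.2.2), if_neg (fun h => h1 h.2.2)]; ring
  rw [h2, mul_zero]

lemma cv_symm (K : ℕ) (pl : Fin k × Bool → Fin d × Fin d) (y : Fin k → St d l) (a : Fin k → Fin n)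
    (u v : Fin k × Bool) : cv K pl y a u v = cv K pl y a v u := by
  unfold cv
  rw [ipF_comm]
  simp only [eq_comm]

lemma cv_psd (K : ℕ) (pl : Fin k × Bool → Fin d × Fin d) (y : Fin k → St d l) (a : Fin k → Fin n)
    (s : Fin k × Bool → ℝ) : 0 ≤ ∑ u, ∑ v, s u * s v * cv K pl y a u v := by
  rw [← vK_tf, vK_eq]
  exact Finset.sum_nonneg fun α _ => ipF_self_nonneg _

/-- the covariance in terms of the Green function -/
def mc (g : (Fin d → ℤ) → ℝ) (pl : Fin k × Bool → Fin d × Fin d) (Y : Fin k → Fin d → ℤ)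
    (a : Fin k → Fin n) (u v : Fin k × Bool) : ℝ :=
  if a u.1 = a v.1 then mx (fun p q => DD p q g (Y u.1 - Y v.1)) (pl u).1 (pl u).2 (pl v).1 (pl v).2
    else 0

lemma cv_eq (hB : S_B2) (hd : 1 ≤ d) {K : ℕ} (pl : Fin k × Bool → Fin d × Fin d)
    {Y : Fin k → Fin d → ℤ} (a : Fin k → Fin n) (hY : ∀ r r' i, |Y r i - Y r' i| + 2 * K + 2 < l)
    (u v : Fin k × Bool) : cv K pl (fun r => zt l (Y r)) a u v = mc (gK d K) pl Y a u v := by
  unfold cv mc
  by_cases h : a u.1 = a v.1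
  · rw [if_pos h, if_pos h]
    exact hB d l K hd (pl u).1 (pl u).2 (pl v).1 (pl v).2 (Y u.1) (Y v.1) (hY u.1 v.1)
  · rw [if_neg h, if_neg h]

lemma DD_le {g : (Fin d → ℤ) → ℝ} {C : ℝ} (hg : ∀ z, |g z| ≤ C) (p q : Fin d) (z : Fin d → ℤ) :
    |DD p q g z| ≤ 4 * C := by
  unfold DD
  have h1 := abs_le.1 (hg (z + Pi.single p 1))
  have h2 := abs_le.1 (hg z)
  have h3 := abs_le.1 (hg (z + Pi.single p 1 - Pi.single q 1))
  have h4 := abs_le.1 (hg (z - Pi.single q 1))
  rw [abs_le]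
  constructor <;> linarith [h1.1, h1.2, h2.1, h2.2, h3.1, h3.2, h4.1, h4.2]

lemma DD_sub (g g' : (Fin d → ℤ) → ℝ) (p q : Fin d) (z : Fin d → ℤ) :
    DD p q g z - DD p q g' z = DD p q (fun z => g z - g' z) z := by
  unfold DD; ring

lemma mx_le {h : Fin d → Fin d → ℝ} {C : ℝ} (hC : 0 ≤ C) (hh : ∀ p q, |h p q| ≤ C)
    (i j p q : Fin d) : |mx h i j p q| ≤ 4 * C := by
  have e : ∀ (P : Prop) [Decidable P] (p q : Fin d), -C ≤ (if P then h p q else 0) ∧
      (if P then h p q else 0) ≤ C := by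
    intro P _ p q
    have := abs_le.1 (hh p q)
    split_ifs
    · exact this
    · exact ⟨by linarith, hC⟩
  unfold mx
  have h1 := e (j = q) i p
  have h2 := e (j = p) i q
  have h3 := e (i = q) j p
  have h4 := e (i = p) j q
  rw [abs_le]
  constructor <;> linarith [h1.1, h1.2, h2.1, h2.2, h3.1, h3.2, h4.1, h4.2]

lemma mx_sub (h h' : Fin d → Fin d → ℝ) (i j p q : Fin d) :
    mx h i j p q - mx h' i j p q = mx (fun a b => h a b - h' a b) i j p q := by
  unfold mx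
  split_ifs <;> ring

lemma mc_le {g : (Fin d → ℤ) → ℝ} {C : ℝ} (hC : 0 ≤ C) (hg : ∀ z, |g z| ≤ C)
    (pl : Fin k × Bool → Fin d × Fin d) (Y : Fin k → Fin d → ℤ) (a : Fin k → Fin n)
    (u v : Fin k × Bool) : |mc g pl Y a u v| ≤ 16 * C := by
  unfold mc
  split_ifs
  · refine (mx_le (C := 4 * C) (by positivity) (fun p q => DD_le hg p q _) _ _ _ _).trans ?_
    linarith
  · rw [abs_zero]; positivity

lemma mc_sub (g g' : (Fin d → ℤ) → ℝ)
    (pl : Fin k × Bool → Fin d × Fin d) (Y : Fin k → Fin d → ℤ) (a : Fin k → Fin n)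
    (u v : Fin k × Bool) : mc g pl Y a u v - mc g' pl Y a u v =
      mc (fun z => g z - g' z) pl Y a u v := by
  unfold mc
  split_ifs
  · rw [mx_sub]
    congr 1
    funext p q
    exact DD_sub _ _ _ _ _
  · ring

/-- a leg -/
def X (L : LD G N n) (b : ℝ) (pl : Fin k × Bool → Fin d × Fin d) (y : Fin k → St d l)
    (a : Fin k → Fin n) (u : Fin k × Bool) (U : Ed d l → G) : ℝ :=
  b ^ 2 * Fz L U (a u.1) (pl u).1 (pl u).2 (y u.1)

lemma Fz_cont' (a : Fin n) (p q : Fin d) (y : St d l) :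
    Continuous fun U : Ed d l → G => Fz L U a p q y := by
  classical
  have h1 : (fun U : Ed d l → G => Fz L U a p q y) =
      Fs L (fun α => if a = α then el p q y else 0) := by
    funext U
    unfold Fs
    rw [Finset.sum_eq_single a]
    · show _ = ipF (if a = a then el p q y else 0) (Fz L U a)
      rw [if_pos rfl, ipF_el (Fz_asy U _)]
    · intro α _ hα
      show ipF (if a = α then el p q y else 0) (Fz L U α) = 0
      rw [if_neg (fun h => hα h.symm)]
      unfold ipF ip2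
      simp
    · intro h; exact absurd (Finset.mem_univ _) h
  rw [h1]
  exact Fs_cont _

lemma X_contL (b : ℝ) (pl : Fin k × Bool → Fin d × Fin d) (y : Fin k → St d l)
    (a : Fin k → Fin n) (u : Fin k × Bool) :
    Continuous (X L b pl y a u : (Ed d l → G) → ℝ) :=
  continuous_const.mul (Fz_cont' _ _ _ _)

lemma X_sum (b : ℝ) (pl : Fin k × Bool → Fin d × Fin d) (y : Fin k → St d l)
    (a : Fin k → Fin n) (s : Fin k × Bool → ℝ) (U : Ed d l → G) :
    ∑ u, s u * X L b pl y a u U = b ^ 2 * Fs L (tf pl y a s) U := by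
  rw [Fs_tf, Finset.mul_sum]
  refine Finset.sum_congr rfl fun u _ => ?_
  unfold X; ring

lemma Fz_le (U : Ed d l → G) (a : Fin n) (p q : Fin d) (y : St d l) :
    Fz L U a p q y ^ 2 ≤ 2 * we L (plqT U y p q) := by
  rw [← dv_sq]
  have h1 : |Fz L U a p q y| ≤ dv L (plqT U y p q) := by
    unfold Fz
    refine (fi_le _ _).trans ?_
    rw [dv_conj]
  rw [← sq_abs]
  exact pow_le_pow_left₀ (abs_nonneg _) h1 2

/-- gauge invariance of the quadratic fields -/
lemma pair_eq (U : Ed d l → G) (p q p' q' : Fin d) (y : St d l) :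
    ∑ α, Fz L U α p q y * Fz L U α p' q' y =
      ∑ α, fi L α (plqT U y p q) * fi L α (plqT U y p' q') := by
  have h1 : ∀ α p q, Fz L U α p q y = ∑ β, L.adm (Pc U y)⁻¹ β α * fi L β (plqT U y p q) := by
    intro α p q
    rw [← fi_rot, inv_inv]
    rfl
  simp only [h1]
  have h2 : ∀ α, (∑ β, L.adm (Pc U y)⁻¹ β α * fi L β (plqT U y p q)) *
      (∑ β, L.adm (Pc U y)⁻¹ β α * fi L β (plqT U y p' q')) =
      ∑ β, ∑ γ, (L.adm (Pc U y)⁻¹ β α * L.adm (Pc U y)⁻¹ γ α) *
        (fi L β (plqT U y p q) * fi L γ (plqT U y p' q')) := by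
    intro α
    rw [Finset.sum_mul_sum]
    refine Finset.sum_congr rfl fun β _ => Finset.sum_congr rfl fun γ _ => ?_
    ring
  simp only [h2]
  rw [Finset.sum_comm]
  refine Finset.sum_congr rfl fun β _ => ?_
  rw [Finset.sum_comm]
  simp only [← Finset.sum_mul]
  rw [Finset.sum_eq_single β]
  · rw [sum_adm_adm, if_pos rfl, one_mul]
  · intro γ _ hγ
    rw [sum_adm_adm, if_neg (fun h => hγ h.symm), zero_mul]
  · intro h; exact absurd (Finset.mem_univ _) h

/-- moments of the legs -/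
theorem X_mom (k e : ℕ) : ∃ C : ℝ, 0 < C ∧ ∀ b : ℝ, 1 ≤ b → ∀ a : ℝ, 1 ≤ a → b ≤ (2 * a) ^ e →
    ∀ (d m : ℕ) [NeZero m], 2 ≤ m → ∀ (pl : Fin k × Bool → Fin d × Fin d)
      (y : Fin k → St d (2 * m)) (c : Fin k → Fin n) (u : Fin k × Bool), (pl u).1 ≠ (pl u).2 →
      ∫ U, |X L b pl y c u U| ^ (2 * k + 2) ∂(PT μ L (b ^ 4)) ≤ C * a := by
  obtain ⟨C, hC, h⟩ := plaq_moment2 μ (L := L) (k + 1) e
  refine ⟨2 ^ (k + 1) * C, by positivity, fun b hb a ha hba d m _ hm pl y c u hu => ?_⟩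
  rw [← EX_int]
  have hc1 : Continuous fun U : Ed d (2 * m) → G =>
      (b ^ 4 * we L (plqT U (y u.1) (pl u).1 (pl u).2)) ^ (k + 1) :=
    (continuous_const.mul (Sm_cont ⟨_, we_mem (L := L) _ _ _⟩)).pow _
  have h1 : EX μ L (b ^ 4) (fun U => |X L b pl y c u U| ^ (2 * k + 2)) ≤
      EX μ L (b ^ 4) (fun U : Ed d (2 * m) → G => 2 ^ (k + 1) *
        (b ^ 4 * we L (plqT U (y u.1) (pl u).1 (pl u).2)) ^ (k + 1)) := by
    refine EX_mono μ ((X_contL b pl y c u).abs.pow _) (continuous_const.mul hc1) fun U => ?_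
    have e1 : |X L b pl y c u U| ^ (2 * k + 2) = (X L b pl y c u U ^ 2) ^ (k + 1) := by
      rw [← sq_abs, ← pow_mul]; congr 1
    rw [e1, ← mul_pow]
    refine pow_le_pow_left₀ (sq_nonneg _) ?_ _
    unfold X
    rw [mul_pow]
    have e2 := Fz_le (L := L) U (c u.1) (pl u).1 (pl u).2 (y u.1)
    have e3 : (0:ℝ) ≤ (b ^ 2) ^ 2 := by positivity
    calc (b ^ 2) ^ 2 * Fz L U (c u.1) (pl u).1 (pl u).2 (y u.1) ^ 2 ≤
        (b ^ 2) ^ 2 * (2 * we L (plqT U (y u.1) (pl u).1 (pl u).2)) :=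
          mul_le_mul_of_nonneg_left e2 e3
      _ = _ := by ring
  refine h1.trans ?_
  rw [EX_smul]
  have h2 : EX μ L (b ^ 4) (fun U : Ed d (2 * m) → G =>
      (b ^ 4 * we L (plqT U (y u.1) (pl u).1 (pl u).2)) ^ (k + 1)) ≤ C * a := by
    unfold EX
    rw [div_le_iff₀ (Zt_pos μ _)]
    exact h b hb a ha hba d m hm (y u.1) _ _ hu
  calc 2 ^ (k + 1) * EX μ L (b ^ 4) (fun U : Ed d (2 * m) → G =>
      (b ^ 4 * we L (plqT U (y u.1) (pl u).1 (pl u).2)) ^ (k + 1)) ≤ 2 ^ (k + 1) * (C * a) :=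
        mul_le_mul_of_nonneg_left h2 (by positivity)
    _ = _ := by ring

end

end Pool.Agent.W793.SCHL
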