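import Mathlib
import Pool.Agent.W793.SCH.Lift2
import Pool.Agent.W793.SCH.Stm4

/-!
# The k-point functions on the torus
-/

open MeasureTheory Matrix Pool.Agent.H906R3.YM Pool.Agent.W793.YM
open Pool.Agent.W793.SCH (haf legs wick Near pk gK DD mx el TK S_B1 S_B2 S_TR S_WC S_HAF green
  plaq_moment2)

namespace Pool.Agent.W793.SCHL

set_option linter.unusedSectionVars false
set_option linter.unusedVariables false

noncomputable section

variable {G : Type} [Group G] [TopologicalSpace G] [IsTopologicalGroup G] [CompactSpace G]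
  [SecondCountableTopology G] [MeasurableSpace G] [BorelSpace G] (μ : Measure G)
  [IsProbabilityMeasure μ] [μ.IsMulLeftInvariant] [μ.IsMulRightInvariant] [μ.IsInvInvariant]
  {N n : ℕ} {L : LD G N n} {d l : ℕ} [NeZero l] {k : ℕ}

variable (L) in
/-- the gauge invariant local field on the torus -/
def Ob (b : ℝ) (pl : Fin k × Bool → Fin d × Fin d) (y : Fin k → St d l) (r : Fin k)
    (U : Ed d l → G) : ℝ :=
  b ^ 4 * ∑ α, fi L α (plqT U (y r) (pl (r, false)).1 (pl (r, false)).2) *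
    fi L α (plqT U (y r) (pl (r, true)).1 (pl (r, true)).2)

variable (L) in
/-- one colour of the local field -/
def Wf (b : ℝ) (pl : Fin k × Bool → Fin d × Fin d) (y : Fin k → St d l) (r : Fin k) (α : Fin n)
    (U : Ed d l → G) : ℝ :=
  X L b pl y (fun _ => α) (r, false) U * X L b pl y (fun _ => α) (r, true) U

lemma Ob_eq (b : ℝ) (pl : Fin k × Bool → Fin d × Fin d) (y : Fin k → St d l) (r : Fin k)
    (U : Ed d l → G) : Ob L b pl y r U = ∑ α, Wf L b pl y r α U := by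
  unfold Ob Wf X
  rw [← pair_eq, Finset.mul_sum]
  refine Finset.sum_congr rfl fun α _ => ?_
  ring

lemma Wf_cont (b : ℝ) (pl : Fin k × Bool → Fin d × Fin d) (y : Fin k → St d l) (r : Fin k)
    (α : Fin n) : Continuous (Wf L b pl y r α : (Ed d l → G) → ℝ) :=
  (X_contL b pl y _ _).mul (X_contL b pl y _ _)

lemma Ob_cont (b : ℝ) (pl : Fin k × Bool → Fin d × Fin d) (y : Fin k → St d l) (r : Fin k) :
    Continuous (Ob L b pl y r : (Ed d l → G) → ℝ) := by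
  have h1 : (Ob L b pl y r : (Ed d l → G) → ℝ) = fun U => ∑ α, Wf L b pl y r α U :=
    funext fun U => Ob_eq b pl y r U
  rw [h1]
  exact continuous_finsetSum _ fun α _ => Wf_cont b pl y r α

/-- expansion in the colours -/
lemma colours (β : ℝ) (b : ℝ) (pl : Fin k × Bool → Fin d × Fin d) (y : Fin k → St d l) :
    EX μ L β (fun U : Ed d l → G => ∏ r, (Ob L b pl y r U - EX μ L β (Ob L b pl y r))) =
      ∑ a : Fin k → Fin n, ∫ U, ∏ r, (X L b pl y a (r, false) U * X L b pl y a (r, true) U -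
        ∫ U', X L b pl y a (r, false) U' * X L b pl y a (r, true) U' ∂(PT μ L β)) ∂(PT μ L β) := by
  classical
  have h1 : ∀ r, EX μ L β (Ob L b pl y r : (Ed d l → G) → ℝ) = ∑ α, EX μ L β (Wf L b pl y r α) := by
    intro r
    have e1 : (Ob L b pl y r : (Ed d l → G) → ℝ) = fun U => ∑ α, Wf L b pl y r α U :=
      funext fun U => Ob_eq b pl y r U
    rw [e1]
    exact EX_sum μ _ fun α _ => Wf_cont b pl y r α
  have h2 : (fun U : Ed d l → G => ∏ r, (Ob L b pl y r U - EX μ L β (Ob L b pl y r))) =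
      fun U => ∑ a : Fin k → Fin n, ∏ r, (Wf L b pl y r (a r) U - EX μ L β (Wf L b pl y r (a r))) := by
    funext U
    have e1 : ∀ r, Ob L b pl y r U - EX μ L β (Ob L b pl y r) =
        ∑ α, (Wf L b pl y r α U - EX μ L β (Wf L b pl y r α)) := by
      intro r
      rw [Finset.sum_sub_distrib, ← h1, ← Ob_eq]
    simp only [e1]
    rw [Finset.prod_univ_sum, Fintype.piFinset_univ]
  rw [h2, EX_sum μ _ fun a _ => continuous_finsetProd _ fun r _ =>
    (Wf_cont b pl y r (a r)).sub continuous_const]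
  refine Finset.sum_congr rfl fun a _ => ?_
  rw [EX_int]
  refine integral_congr_ae (Filter.Eventually.of_forall fun U => ?_)
  refine Finset.prod_congr rfl fun r _ => ?_
  rw [EX_int]
  rfl

/-- the hypotheses of the abstract theorem -/
theorem near (hd : 3 ≤ d) (hB : S_B2) (hT : S_TR) (k κ₀ : ℕ) (hκ : 1 ≤ κ₀) :
    ∃ (CM Cδ CT : ℝ), 1 ≤ CM ∧ 0 ≤ Cδ ∧ 0 < CT ∧ (∀ z, |green d z| ≤ CT) ∧
      (∀ (K : ℕ) z, 1 ≤ K → |gK d K z - green d z| ≤ CT / Real.sqrt K) ∧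
      ∀ a : ℕ, 1 ≤ a → ∀ b : ℝ,
      (a : ℝ) ^ (4 * κ₀ * (2 * d + 3) + κ₀) ≤ b → b ≤ (2 * a) ^ (4 * κ₀ * (2 * d + 3) + κ₀) →
      ∀ (m : ℕ) [NeZero m], 2 * (3 * a) ^ (4 * κ₀) ≤ m →
      ∀ pl : Fin k × Bool → Fin d × Fin d, (∀ u, (pl u).1 ≠ (pl u).2) →
      ∀ Y : Fin k → Fin d → ℤ, (∀ r i, (((3 * a) ^ (4 * κ₀) : ℕ) : ℤ) + 2 ≤ Y r i ∧
        Y r i < 2 * (((3 * a) ^ (4 * κ₀) : ℕ) : ℤ) + 2) → (∀ r r' i, |Y r i - Y r' i| ≤ 2 * a) →
      ∀ c : Fin k → Fin n,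
        Near (PT μ L (b ^ 4) : Measure (Ed d (2 * m) → G)) (X L b pl (fun r => zt _ (Y r)) c)
          (mc (gK d ((3 * a) ^ (4 * κ₀))) pl Y c) (2 * k + 2) (CM * a) (Cδ / a ^ κ₀) := by
  obtain ⟨CL, hCL, hL⟩ := YM.lattice μ (L := L) hd
  obtain ⟨CT, hCT, _, hg, hgK⟩ := hT d hd
  obtain ⟨Cm, hCm, hmom⟩ := X_mom μ (L := L) k (4 * κ₀ * (2 * d + 3) + κ₀)
  obtain ⟨e, he⟩ : ∃ e, e = 4 * κ₀ * (2 * d + 3) + κ₀ := ⟨_, rfl⟩
  refine ⟨max 1 (max (32 * CT) Cm), CL * (4 * k + 3 ^ (4 * κ₀ * (2 * d + 3)) * (1 + 4 * k) ^ 2), CT,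
    le_max_left _ _, by positivity, hCT, hg, hgK, fun a ha b hab hba m _ hm pl hpl Y hY hYY c => ?_⟩
  rw [← he] at hab hba hmom
  have hd1 : 1 ≤ d := by omega
  have ha1 : (1:ℝ) ≤ a := by exact_mod_cast ha
  have ha0 : (0:ℝ) < a := by linarith
  have hb : 1 ≤ b := le_trans (one_le_pow₀ ha1) hab
  have hb0 : 0 < b := by linarith
  obtain ⟨K, hK⟩ : ∃ K, K = (3 * a) ^ (4 * κ₀) := ⟨_, rfl⟩
  rw [← hK] at hm hY ⊢
  have hK81 : 81 * a ≤ K := by
    rw [hK]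
    calc 81 * a ≤ (3 * a) ^ 4 := by
          have : (3 * a) ^ 4 = 81 * a * (a ^ 3) := by ring
          rw [this]
          exact Nat.le_mul_of_pos_right _ (by positivity)
      _ ≤ (3 * a) ^ (4 * κ₀) := Nat.pow_le_pow_right (by omega) (by omega)
  have hK1 : 1 ≤ K := by omega
  have hK1' : (1:ℝ) ≤ K := by exact_mod_cast hK1
  have hm2 : 2 ≤ m := by omega
  have hKm : 3 * K + 5 < 2 * m := by omega
  have hKr : (K : ℝ) = (3 * a) ^ (4 * κ₀) := by rw [hK]; push_cast; rfl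
  have hsq : Real.sqrt K = (3 * a) ^ (2 * κ₀) := by
    rw [hKr, show (3 * (a:ℝ)) ^ (4 * κ₀) = ((3 * a) ^ (2 * κ₀)) ^ 2 by rw [← pow_mul]; congr 1; ring]
    exact Real.sqrt_sq (by positivity)
  have hy : ∀ r i, K + 2 ≤ wv (zt (2 * m) (Y r)) i ∧ wv (zt (2 * m) (Y r)) i < 2 * K + 2 := by
    intro r i
    have h1 := hY r
    have h2 := wv_zt (l := 2 * m) (z := Y r) (fun i => by
      have := h1 i
      push_cast
      constructor
      · omega
      · omega) i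
    have h3 := h1 i
    omega
  have hYl : ∀ r r' i, |Y r i - Y r' i| + 2 * K + 2 < ((2 * m : ℕ) : ℤ) := by
    intro r r' i
    have := hYY r r' i
    push_cast
    omega
  have hcv := fun u v => cv_eq (l := 2 * m) hB hd1 pl c hYl u v
  have hA : mc (gK d K) pl Y c = cv K pl (fun r => zt (2 * m) (Y r)) c := by
    funext u v
    exact (hcv u v).symm
  have hCM1 : 1 ≤ max 1 (max (32 * CT) Cm) := le_max_left _ _
  have hCMT : 32 * CT ≤ max 1 (max (32 * CT) Cm) := (le_max_left _ _).trans (le_max_right _ _)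
  have hCMm : Cm ≤ max 1 (max (32 * CT) Cm) := (le_max_right _ _).trans (le_max_right _ _)
  have hMa : max 1 (max (32 * CT) Cm) ≤ max 1 (max (32 * CT) Cm) * a :=
    le_mul_of_one_le_right (by linarith) ha1
  have hchar : ∀ s : Fin k × Bool → ℝ, (∀ u, |s u| ≤ 1) →
      |EX μ L (b ^ 4) (fun U : Ed d (2 * m) → G =>
        Real.cos (b ^ 2 * Fs L (tf pl (fun r => zt (2 * m) (Y r)) c s) U)) -
        Real.exp (-(vK K (tf pl (fun r => zt (2 * m) (Y r)) c s) / 2))| ≤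
          CL * (4 * k + 3 ^ (4 * κ₀ * (2 * d + 3)) * (1 + 4 * k) ^ 2) / a ^ κ₀ ∧
      |EX μ L (b ^ 4) (fun U : Ed d (2 * m) → G =>
        Real.sin (b ^ 2 * Fs L (tf pl (fun r => zt (2 * m) (Y r)) c s) U))| ≤
          CL * (4 * k + 3 ^ (4 * κ₀ * (2 * d + 3)) * (1 + 4 * k) ^ 2) / a ^ κ₀ := by
    intro s hs
    have h1 := hL b hb m K hK1 hKm (tf pl (fun r => zt (2 * m) (Y r)) c s)
      (fun α => tf_asy _ _ _ _ _) (fun α j k => tf_SW hy α j k)
    have hN := N1_tf pl (fun r => zt (2 * m) (Y r)) c s hs (n := n)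
    have hN0 := N1_nonneg (tf pl (fun r => zt (2 * m) (Y r)) c s)
    obtain ⟨N₁, hN₁⟩ : ∃ N₁, N₁ = N1 (tf pl (fun r => zt (2 * m) (Y r)) c s) := ⟨_, rfl⟩
    rw [← hN₁] at h1 hN hN0
    have e1 : N₁ / Real.sqrt (Real.sqrt K ^ (d - 2)) ≤ 4 * k / a ^ κ₀ := by
      have e2 : (a:ℝ) ^ κ₀ ≤ Real.sqrt (Real.sqrt K ^ (d - 2)) := by
        refine Real.le_sqrt_of_sq_le ?_
        have e3 : (1:ℝ) ≤ Real.sqrt K := Real.one_le_sqrt.2 hK1'
        calc ((a:ℝ) ^ κ₀) ^ 2 = a ^ (2 * κ₀) := by rw [← pow_mul]; congr 1; ring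
          _ ≤ (3 * a) ^ (2 * κ₀) := pow_le_pow_left₀ ha0.le (by linarith) _
          _ = Real.sqrt K := hsq.symm
          _ = Real.sqrt K ^ 1 := (pow_one _).symm
          _ ≤ Real.sqrt K ^ (d - 2) := pow_le_pow_right₀ e3 (by omega)
      exact div_le_div₀ (by positivity) hN (by positivity) e2
    have e4 : (K:ℝ) ^ (2 * d + 3) * (1 + N₁) ^ 2 / b ≤
        3 ^ (4 * κ₀ * (2 * d + 3)) * (1 + 4 * k) ^ 2 / a ^ κ₀ := by
      have e5 : (K:ℝ) ^ (2 * d + 3) = 3 ^ (4 * κ₀ * (2 * d + 3)) * a ^ (4 * κ₀ * (2 * d + 3)) := by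
        rw [hKr, ← pow_mul, mul_pow]
      have e6 : (1 + N₁) ^ 2 ≤ (1 + 4 * (k:ℝ)) ^ 2 := pow_le_pow_left₀ (by linarith) (by linarith) 2
      rw [div_le_div_iff₀ hb0 (by positivity)]
      calc (K:ℝ) ^ (2 * d + 3) * (1 + N₁) ^ 2 * (a:ℝ) ^ κ₀ ≤
          (K:ℝ) ^ (2 * d + 3) * (1 + 4 * (k:ℝ)) ^ 2 * (a:ℝ) ^ κ₀ := by
            gcongr
        _ = (3:ℝ) ^ (4 * κ₀ * (2 * d + 3)) * (1 + 4 * (k:ℝ)) ^ 2 * (a:ℝ) ^ e := by
            rw [e5, he, pow_add]; ring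
        _ ≤ (3:ℝ) ^ (4 * κ₀ * (2 * d + 3)) * (1 + 4 * (k:ℝ)) ^ 2 * b :=
            mul_le_mul_of_nonneg_left hab (by positivity)
    have e7 : CL * (N₁ / Real.sqrt (Real.sqrt K ^ (d - 2)) + (K:ℝ) ^ (2 * d + 3) * (1 + N₁) ^ 2 / b) ≤
        CL * (4 * k + 3 ^ (4 * κ₀ * (2 * d + 3)) * (1 + 4 * k) ^ 2) / a ^ κ₀ := by
      calc _ ≤ CL * (4 * k / a ^ κ₀ + 3 ^ (4 * κ₀ * (2 * d + 3)) * (1 + 4 * k) ^ 2 / a ^ κ₀) :=
            mul_le_mul_of_nonneg_left (add_le_add e1 e4) hCL.le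
        _ = _ := by ring
    exact ⟨h1.1.trans e7, h1.2.trans e7⟩
  refine ⟨fun u => (X_contL b pl _ c u).measurable, ?_, ?_, by positivity, ?_, ?_, ?_, ?_, ?_, ?_⟩
  · -- bounded
    have h1 : ∀ u, ∃ B, ∀ U : Ed d (2 * m) → G, |X L b pl (fun r => zt (2 * m) (Y r)) c u U| ≤ B :=
      fun u => bdd_cont (X_contL b pl _ c u)
    choose B hB' using h1
    refine ⟨∑ u, |B u|, fun u U => (hB' u U).trans ((le_abs_self _).trans ?_)⟩
    exact Finset.single_le_sum (f := fun u => |B u|) (fun u _ => abs_nonneg _) (Finset.mem_univ u)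
  · linarith
  · intro u v
    rw [hA]; exact cv_symm _ _ _ _ _ _
  · intro s
    rw [hA]; exact cv_psd _ _ _ _ _
  · intro u v
    have h1 : ∀ z, |gK d K z| ≤ 2 * CT := by
      intro z
      have h2 := hgK K z hK1
      have h3 : CT / Real.sqrt K ≤ CT := div_le_self hCT.le (Real.one_le_sqrt.2 hK1')
      have h4 : |gK d K z| ≤ |gK d K z - green d z| + |green d z| := by
        have := abs_add_le (gK d K z - green d z) (green d z)
        rwa [sub_add_cancel] at this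
      linarith [hg z]
    have h5 := mc_le (by positivity) h1 pl Y c u v
    linarith
  · intro u
    refine (hmom b hb a ha1 hba d m hm2 pl _ c u (hpl u)).trans ?_
    exact mul_le_mul_of_nonneg_right hCMm ha0.le
  · intro s hs
    have h1 := (hchar s hs).1
    rw [EX_int, vK_tf] at h1
    simp only [X_sum]
    rw [hA]
    have e1 : ∀ S : ℝ, -(S / 2) = -(1 / 2 * S) := fun S => by ring
    rw [e1] at h1
    exact h1
  · intro s hs
    have h1 := (hchar s hs).2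
    rw [EX_int] at h1
    simp only [X_sum]
    exact h1

end

end Pool.Agent.W793.SCHL
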