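import Mathlib
import Pool.Agent.W793.SCH.Lift3

/-!
# The k-point functions on the torus: the main estimate
-/

open MeasureTheory Matrix Pool.Agent.H906R3.YM Pool.Agent.W793.YM
open Pool.Agent.W793.SCH (haf legs wick Near pk gK DD mx el TK S_B1 S_B2 S_TR S_WC S_HAF green
  plaq_moment2)

namespace Pool.Agent.W793.SCHL

set_option linter.unusedSectionVars false
set_option linter.unusedVariables false

noncomputable section

variable {G : Type} [Group G] [TopologicalSpace G] [IsTopologicalGroup G] [CompactSpace G]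
  [SecondCountableTopology G] [MeasurableSpace G] [BorelSpace G] (μ : Measure G)
  [IsProbabilityMeasure μ] [μ.IsMulLeftInvariant] [μ.IsMulRightInvariant] [μ.IsInvInvariant]
  {N n : ℕ} {L : LD G N n} {d l : ℕ} [NeZero l] {k : ℕ}

theorem corr0 (hd : 3 ≤ d) (hW : S_WC) (hB : S_B2) (hT : S_TR) (hH : S_HAF) (k p : ℕ) :
    ∃ (κ₀ : ℕ) (C : ℝ), 1 ≤ κ₀ ∧ 0 < C ∧ ∀ a : ℕ, 1 ≤ a → ∀ b : ℝ,
      (a : ℝ) ^ (4 * κ₀ * (2 * d + 3) + κ₀) ≤ b → b ≤ (2 * a) ^ (4 * κ₀ * (2 * d + 3) + κ₀) →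
      ∀ (m : ℕ) [NeZero m], 2 * (3 * a) ^ (4 * κ₀) ≤ m →
      ∀ pl : Fin k × Bool → Fin d × Fin d, (∀ u, (pl u).1 ≠ (pl u).2) →
      ∀ Y : Fin k → Fin d → ℤ, (∀ r i, (((3 * a) ^ (4 * κ₀) : ℕ) : ℤ) + 2 ≤ Y r i ∧
        Y r i < 2 * (((3 * a) ^ (4 * κ₀) : ℕ) : ℤ) + 2) → (∀ r r' i, |Y r i - Y r' i| ≤ 2 * a) →
      |EX μ L (b ^ 4) (fun U : Ed d (2 * m) → G =>
        ∏ r, (Ob L b pl (fun r => zt (2 * m) (Y r)) r U -
          EX μ L (b ^ 4) (Ob L b pl (fun r => zt (2 * m) (Y r)) r))) -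
        ∑ c : Fin k → Fin n, wick k (mc (green d) pl Y c)| ≤ C / a ^ p := by
  obtain ⟨h₀, hh₀⟩ : ∃ h₀, h₀ = p + 4 * k + 4 := ⟨_, rfl⟩
  obtain ⟨κ₀, hκ₀⟩ : ∃ κ₀, κ₀ = 2 * k * h₀ + (4 * k + 4) + p := ⟨_, rfl⟩
  obtain ⟨CM, Cδ, CT, hCM, hCδ, hCT, hg, hgK, hnear⟩ :=
    near μ (L := L) hd hB hT k κ₀ (by omega)
  obtain ⟨CW, hCW, hWC⟩ := hW k
  obtain ⟨_, _, _, _, hlip, _, _⟩ := hH
  obtain ⟨B₁, hB₁⟩ : ∃ B₁, B₁ = max 1 (32 * CT) := ⟨_, rfl⟩
  have hB1 : 1 ≤ B₁ := by rw [hB₁]; exact le_max_left _ _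
  have hB2 : 32 * CT ≤ B₁ := by rw [hB₁]; exact le_max_right _ _
  obtain ⟨C1, hC1⟩ : ∃ C1, C1 = CW * CM ^ (4 * k + 4) * (Cδ + 1) +
    (2 * k) * (2 * k).factorial * B₁ ^ (2 * k) * (16 * CT) := ⟨_, rfl⟩
  have hC10 : 0 ≤ C1 := by rw [hC1]; positivity
  refine ⟨κ₀, n ^ k * C1 + 1, by omega, by positivity,
    fun a ha b hab hba m _ hm pl hpl Y hY hYY => ?_⟩
  have ha1 : (1:ℝ) ≤ a := by exact_mod_cast ha
  have ha0 : (0:ℝ) < a := by linarith
  rw [colours, ← Finset.sum_sub_distrib]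
  obtain ⟨K, hK⟩ : ∃ K, K = (3 * a) ^ (4 * κ₀) := ⟨_, rfl⟩
  have hK1 : 1 ≤ K := by rw [hK]; exact Nat.one_le_pow _ _ (by omega)
  have hK1' : (1:ℝ) ≤ K := by exact_mod_cast hK1
  have hKr : (K : ℝ) = (3 * a) ^ (4 * κ₀) := by rw [hK]; push_cast; rfl
  have hsq : Real.sqrt K = (3 * a) ^ (2 * κ₀) := by
    rw [hKr, show (3 * (a:ℝ)) ^ (4 * κ₀) = ((3 * a) ^ (2 * κ₀)) ^ 2 by rw [← pow_mul]; congr 1; ring]
    exact Real.sqrt_sq (by positivity)
  have hap : (a:ℝ) ^ p ≤ Real.sqrt K := by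
    rw [hsq]
    calc (a:ℝ) ^ p ≤ a ^ (2 * κ₀) := pow_le_pow_right₀ ha1 (by omega)
      _ ≤ _ := pow_le_pow_left₀ ha0.le (by linarith) _
  have hone : ∀ c : Fin k → Fin n,
      |(∫ U, ∏ r, (X L b pl (fun r => zt (2 * m) (Y r)) c (r, false) U *
        X L b pl (fun r => zt (2 * m) (Y r)) c (r, true) U -
        ∫ U', X L b pl (fun r => zt (2 * m) (Y r)) c (r, false) U' *
          X L b pl (fun r => zt (2 * m) (Y r)) c (r, true) U' ∂(PT μ L (b ^ 4))) ∂(PT μ L (b ^ 4))) -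
        wick k (mc (green d) pl Y c)| ≤ C1 / a ^ p := by
    intro c
    haveI := PT_prob μ (L := L) (d := d) (l := 2 * m) (b ^ 4)
    have h1 := hWC _ (PT μ L (b ^ 4) : Measure (Ed d (2 * m) → G))
      (X L b pl (fun r => zt (2 * m) (Y r)) c) (mc (gK d ((3 * a) ^ (4 * κ₀))) pl Y c) (CM * a)
      (Cδ / a ^ κ₀) (1 / a ^ h₀) (hnear a ha b hab hba m hm pl hpl Y hY hYY c) (by positivity)
      (by rw [div_le_one (by positivity)]; exact one_le_pow₀ ha1)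
    have h2 : CW * (CM * a) ^ (4 * k + 4) * (Cδ / a ^ κ₀ / (1 / a ^ h₀) ^ (2 * k) + (1 / a ^ h₀) ^ 2) ≤
        CW * CM ^ (4 * k + 4) * (Cδ + 1) / a ^ p := by
      have e1 : (a:ℝ) ^ (4 * k + 4) * (Cδ / a ^ κ₀ / (1 / a ^ h₀) ^ (2 * k)) = Cδ / a ^ p := by
        have e2 : (1 / (a:ℝ) ^ h₀) ^ (2 * k) = 1 / a ^ (2 * k * h₀) := by
          rw [_root_.one_div_pow, ← pow_mul, mul_comm h₀]
        have e3 : (a:ℝ) ^ κ₀ = a ^ (2 * k * h₀) * a ^ (4 * k + 4) * a ^ p := by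
          rw [hκ₀, pow_add, pow_add]
        rw [e2, e3]
        obtain ⟨x, hx⟩ : ∃ x, x = (a:ℝ) ^ (2 * k * h₀) := ⟨_, rfl⟩
        obtain ⟨y, hy⟩ : ∃ y, y = (a:ℝ) ^ (4 * k + 4) := ⟨_, rfl⟩
        obtain ⟨z, hz⟩ : ∃ z, z = (a:ℝ) ^ p := ⟨_, rfl⟩
        rw [← hx, ← hy, ← hz]
        have hx0 : x ≠ 0 := by rw [hx]; positivity
        have hy0 : y ≠ 0 := by rw [hy]; positivity
        have hz0 : z ≠ 0 := by rw [hz]; positivity
        field_simp
      have e3 : (a:ℝ) ^ (4 * k + 4) * (1 / a ^ h₀) ^ 2 ≤ 1 / a ^ p := by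
        rw [one_div, inv_pow, ← pow_mul, ← div_eq_mul_inv, div_le_div_iff₀ (by positivity)
          (by positivity), ← pow_add, one_mul]
        exact pow_le_pow_right₀ ha1 (by omega)
      calc _ = CW * CM ^ (4 * k + 4) * ((a:ℝ) ^ (4 * k + 4) * (Cδ / a ^ κ₀ / (1 / a ^ h₀) ^ (2 * k)) +
            (a:ℝ) ^ (4 * k + 4) * (1 / a ^ h₀) ^ 2) := by rw [mul_pow]; ring
        _ ≤ CW * CM ^ (4 * k + 4) * (Cδ / a ^ p + 1 / a ^ p) := by
            refine mul_le_mul_of_nonneg_left ?_ (by positivity)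
            rw [e1]
            linarith
        _ = _ := by ring
    have h3 : |wick k (mc (gK d K) pl Y c) - wick k (mc (green d) pl Y c)| ≤
        (2 * k) * (2 * k).factorial * B₁ ^ (2 * k) * (16 * CT) / a ^ p := by
      have hη : CT / Real.sqrt K ≤ CT / a ^ p := div_le_div_of_nonneg_left hCT.le (by positivity) hap
      have e1 : ∀ z, |gK d K z| ≤ 2 * CT := by
        intro z
        have h2 := hgK K z hK1
        have h3 : CT / Real.sqrt K ≤ CT := div_le_self hCT.le (Real.one_le_sqrt.2 hK1')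
        have h4 : |gK d K z| ≤ |gK d K z - green d z| + |green d z| := by
          have := abs_add_le (gK d K z - green d z) (green d z)
          rwa [sub_add_cancel] at this
        linarith [hg z]
      have h4 := hlip k (mc (gK d K) pl Y c) (mc (green d) pl Y c) B₁ (16 * (CT / a ^ p)) hB1
        (by positivity)
        (fun u v _ => (mc_le (by positivity) e1 pl Y c u v).trans (by linarith))
        (fun u v _ => (mc_le hCT.le hg pl Y c u v).trans (by linarith))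
        (fun u v _ => by
          rw [mc_sub]
          exact mc_le (by positivity) (fun z => (hgK K z hK1).trans hη) pl Y c u v)
      refine h4.trans (le_of_eq ?_)
      ring
    rw [← hK] at h1
    have h5 := abs_sub_le (∫ U, ∏ r, (X L b pl (fun r => zt (2 * m) (Y r)) c (r, false) U *
        X L b pl (fun r => zt (2 * m) (Y r)) c (r, true) U -
        ∫ U', X L b pl (fun r => zt (2 * m) (Y r)) c (r, false) U' *
          X L b pl (fun r => zt (2 * m) (Y r)) c (r, true) U' ∂(PT μ L (b ^ 4))) ∂(PT μ L (b ^ 4)))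
        (wick k (mc (gK d K) pl Y c)) (wick k (mc (green d) pl Y c))
    refine h5.trans ?_
    calc _ ≤ CW * CM ^ (4 * k + 4) * (Cδ + 1) / a ^ p +
          (2 * k) * (2 * k).factorial * B₁ ^ (2 * k) * (16 * CT) / a ^ p := add_le_add (h1.trans h2) h3
      _ = C1 / a ^ p := by rw [hC1]; ring
  calc _ ≤ ∑ c : Fin k → Fin n, C1 / a ^ p :=
        (Finset.abs_sum_le_sum_abs _ _).trans (Finset.sum_le_sum fun c _ => hone c)
    _ = n ^ k * C1 / a ^ p := by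
        rw [Finset.sum_const, Finset.card_univ, Fintype.card_fun, Fintype.card_fin,
          Fintype.card_fin, nsmul_eq_mul]
        push_cast; ring
    _ ≤ _ := div_le_div_of_nonneg_right (by linarith) (by positivity)

/-- The k-point functions on the torus. -/
theorem corr (hd : 3 ≤ d) (hW : S_WC) (hB : S_B2) (hT : S_TR) (hH : S_HAF) (k p : ℕ) :
    ∃ (e κ : ℕ) (C : ℝ), 1 ≤ e ∧ κ + 1 ≤ 4 * e ∧ 0 < C ∧ ∀ a : ℕ, 1 ≤ a → ∀ b : ℝ,
      (a : ℝ) ^ e ≤ b → b ≤ (2 * a) ^ e →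
      ∀ (m : ℕ) [NeZero m], 2 * (3 * a) ^ κ ≤ m →
      ∀ pl : Fin k × Bool → Fin d × Fin d, (∀ u, (pl u).1 ≠ (pl u).2) →
      ∀ Y : Fin k → Fin d → ℤ, (∀ r i, |Y r i| ≤ a) →
      |EX μ L (b ^ 4) (fun U : Ed d (2 * m) → G =>
        ∏ r, (Ob L b pl (fun r => zt (2 * m) (Y r)) r U -
          EX μ L (b ^ 4) (Ob L b pl (fun r => zt (2 * m) (Y r)) r))) -
        ∑ c : Fin k → Fin n, wick k (mc (green d) pl Y c)| ≤ C / a ^ p := by
  obtain ⟨κ₀, C, hκ₀, hC, h⟩ := corr0 μ (L := L) hd hW hB hT hH k p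
  refine ⟨4 * κ₀ * (2 * d + 3) + κ₀, 4 * κ₀, C, by omega, by
    have : 4 * κ₀ ≤ 4 * κ₀ * (2 * d + 3) := Nat.le_mul_of_pos_right _ (by omega)
    omega, hC, fun a ha b hab hba m _ hm pl hpl Y hY => ?_⟩
  obtain ⟨K, hK⟩ : ∃ K, K = (3 * a) ^ (4 * κ₀) := ⟨_, rfl⟩
  have hK81 : 81 * a ≤ K := by
    rw [hK]
    calc 81 * a ≤ (3 * a) ^ 4 := by
          have : (3 * a) ^ 4 = 81 * a * (a ^ 3) := by ring
          rw [this]
          exact Nat.le_mul_of_pos_right _ (by positivity)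
      _ ≤ (3 * a) ^ (4 * κ₀) := Nat.pow_le_pow_right (by omega) (by omega)
  obtain ⟨o, ho⟩ : ∃ o : Fin d → ℤ, o = fun _ => (K : ℤ) + 2 + a := ⟨_, rfl⟩
  have h1 := h a ha b hab hba m hm pl hpl (fun r => Y r + o) (fun r i => by
    have := abs_le.1 (hY r i)
    rw [← hK, ho]
    simp only [Pi.add_apply]
    constructor
    · linarith
    · have : (81 * a : ℤ) ≤ K := by exact_mod_cast hK81
      have : (1:ℤ) ≤ a := by exact_mod_cast ha
      linarith [(abs_le.1 (hY r i)).2]) (fun r r' i => by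
    have h1 := abs_le.1 (hY r i)
    have h2 := abs_le.1 (hY r' i)
    simp only [Pi.add_apply, add_sub_add_right_eq_sub]
    rw [abs_le]
    constructor <;> linarith [h1.1, h1.2, h2.1, h2.2])
  have e1 : ∀ c : Fin k → Fin n, mc (green d) pl (fun r => Y r + o) c = mc (green d) pl Y c := by
    intro c
    funext u v
    unfold mc
    simp only [add_sub_add_right_eq_sub]
  simp only [e1] at h1
  have e2 : ∀ r, (Ob L b pl (fun r => zt (2 * m) (Y r + o)) r : (Ed d (2 * m) → G) → ℝ) =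
      fun U => Ob L b pl (fun r => zt (2 * m) (Y r)) r (tr (zt (2 * m) o) U) := by
    intro r
    funext U
    unfold Ob
    have e3 : zt (2 * m) (Y r + o) = zt (2 * m) (Y r) + zt (2 * m) o := by
      funext i
      unfold zt
      simp
    simp only [plqT_tr, e3]
  have e4 : ∀ r, EX μ L (b ^ 4) (fun U : Ed d (2 * m) → G =>
      Ob L b pl (fun r => zt (2 * m) (Y r)) r (tr (zt (2 * m) o) U)) =
      EX μ L (b ^ 4) (Ob L b pl (fun r => zt (2 * m) (Y r)) r) := fun r => EX_tr μ _ _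
  simp only [e2, e4] at h1
  have e5 := EX_tr μ (L := L) (β := b ^ 4) (zt (2 * m) o) (fun U : Ed d (2 * m) → G =>
    ∏ r, (Ob L b pl (fun r => zt (2 * m) (Y r)) r U -
      EX μ L (b ^ 4) (Ob L b pl (fun r => zt (2 * m) (Y r)) r)))
  rw [e5] at h1
  exact h1

end

end Pool.Agent.W793.SCHL
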