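import Mathlib
import Pool.Agent.W793.SCH.Lift4

/-!
# The scaling limit of the k-point functions
-/

open MeasureTheory Matrix Filter Pool.Agent.H906R3.YM Pool.Agent.W793.YM
open scoped Topology
open Pool.Agent.W793.SCH (haf legs wick Near pk gK DD mx el TK S_B1 S_B2 S_TR S_WC S_HAF S_KER
  green hess plaq_moment2)

namespace Pool.Agent.W793.SCHL

set_option linter.unusedSectionVars false
set_option linter.unusedVariables false

noncomputable section

section limits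

variable {d k n : ℕ}

lemma haf_tendsto {ι : Type*} {l : Filter ℕ} {A : ℕ → ι → ι → ℝ} {A' : ι → ι → ℝ}
    (h : ∀ u v, Tendsto (fun q => A q u v) l (𝓝 (A' u v))) (m : ℕ) :
    ∀ L : List ι, L.length ≤ m → Tendsto (fun q => haf (A q) L) l (𝓝 (haf A' L)) := by
  induction m with
  | zero =>
    intro L hL
    have : L = [] := List.length_eq_zero_iff.1 (by omega)
    subst this
    simp only [haf]
    exact tendsto_const_nhds
  | succ m ih =>
    intro L hL
    cases L with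
    | nil => simp only [haf]; exact tendsto_const_nhds
    | cons a L =>
      simp only [haf]
      refine tendsto_finsetSum _ fun i _ => (h _ _).mul (ih _ ?_)
      have h1 := List.length_eraseIdx_of_lt i.isLt
      simp only [List.length_cons] at hL
      omega

lemma mx_tendsto {l : Filter ℕ} {h : ℕ → Fin d → Fin d → ℝ} {h' : Fin d → Fin d → ℝ}
    (hh : ∀ p q, Tendsto (fun t => h t p q) l (𝓝 (h' p q))) (i j p q : Fin d) :
    Tendsto (fun t => mx (h t) i j p q) l (𝓝 (mx h' i j p q)) := by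
  have e : ∀ (P : Prop) [Decidable P] (p q : Fin d),
      Tendsto (fun t => if P then h t p q else 0) l (𝓝 (if P then h' p q else 0)) := by
    intro P _ p q
    split_ifs
    · exact hh p q
    · exact tendsto_const_nhds
  unfold mx
  exact (((e _ _ _).neg.add (e _ _ _)).add (e _ _ _)).sub (e _ _ _)

lemma mx_smul (c : ℝ) (h : Fin d → Fin d → ℝ) (i j p q : Fin d) :
    c * mx h i j p q = mx (fun a b => c * h a b) i j p q := by
  unfold mx
  split_ifs <;> ring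

lemma floor_lim (x : ℝ) : Tendsto (fun q : ℕ => ((⌊(q : ℝ) * x⌋ : ℤ) : ℝ) / q) atTop (𝓝 x) := by
  have h1 : Tendsto (fun q : ℕ => x - 1 / (q : ℝ)) atTop (𝓝 (x - 0)) :=
    tendsto_const_nhds.sub tendsto_one_div_atTop_nhds_zero_nat
  rw [sub_zero] at h1
  refine tendsto_of_tendsto_of_tendsto_of_le_of_le' h1 tendsto_const_nhds ?_ ?_
  · filter_upwards [eventually_gt_atTop 0] with q hq
    have hq0 : (0:ℝ) < q := by exact_mod_cast hq
    rw [le_div_iff₀ hq0, sub_mul, one_div, inv_mul_cancel₀ hq0.ne']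
    have := Int.sub_one_lt_floor ((q:ℝ) * x)
    linarith
  · filter_upwards [eventually_gt_atTop 0] with q hq
    have hq0 : (0:ℝ) < q := by exact_mod_cast hq
    rw [div_le_iff₀ hq0]
    have := Int.floor_le ((q:ℝ) * x)
    linarith

/-- the limit of the k-point functions -/
def sch (n k : ℕ) (pl : Fin k × Bool → Fin d × Fin d) (x : Fin k → Fin d → ℝ) : ℝ :=
  ∑ c : Fin k → Fin n, wick k fun u v => if c u.1 = c v.1 then
    mx (fun p q => hess d p q (x u.1 - x v.1)) (pl u).1 (pl u).2 (pl v).1 (pl v).2 else 0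

lemma sch_lim (hd : 3 ≤ d) (hH : S_HAF) (hK : S_KER) (pl : Fin k × Bool → Fin d × Fin d)
    (x : Fin k → Fin d → ℝ) (hx : Function.Injective x) :
    Tendsto (fun q : ℕ => (q : ℝ) ^ (d * k) * ∑ c : Fin k → Fin n,
      wick k (mc (green d) pl (fun r i => ⌊(q : ℝ) * x r i⌋) c)) atTop (𝓝 (sch n k pl x)) := by
  obtain ⟨_, _, _, _, _, hsm, _⟩ := hH
  have h1 : ∀ q : ℕ, (q : ℝ) ^ (d * k) * ∑ c : Fin k → Fin n,
      wick k (mc (green d) pl (fun r i => ⌊(q : ℝ) * x r i⌋) c) =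
      ∑ c : Fin k → Fin n, wick k fun u v => (q:ℝ) ^ d *
        mc (green d) pl (fun r i => ⌊(q : ℝ) * x r i⌋) c u v := by
    intro q
    rw [Finset.mul_sum]
    refine Finset.sum_congr rfl fun c _ => ?_
    rw [hsm, ← pow_mul]
  simp only [h1]
  unfold sch
  refine tendsto_finsetSum _ fun c _ => ?_
  unfold wick
  refine haf_tendsto (fun u v => ?_) _ _ le_rfl
  by_cases huv : u.1 = v.1
  · simp only [if_pos huv]
    exact tendsto_const_nhds
  · simp only [if_neg huv]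
    unfold mc
    by_cases hc : c u.1 = c v.1
    · simp only [if_pos hc, mx_smul]
      refine mx_tendsto (fun p q => ?_) _ _ _ _
      refine hK d hd p q (x u.1 - x v.1) (sub_ne_zero.2 fun h => huv (hx h)) _ fun i => ?_
      have h2 := (floor_lim (x u.1 i)).sub (floor_lim (x v.1 i))
      simp only [Pi.sub_apply]
      refine h2.congr fun q => ?_
      push_cast
      ring
    · simp only [if_neg hc, mul_zero]
      exact tendsto_const_nhds

/-- the scale -/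
lemma scale {e q : ℕ} (he : 1 ≤ e) (hq : 1 ≤ q) {β : ℝ} (hβ : (q : ℝ) ^ (12 * e) ≤ β) :
    ∃ (b : ℝ) (a : ℕ), b ^ 4 = β ∧ 1 ≤ b ∧ q ^ 3 ≤ a ∧ (a : ℝ) ^ e ≤ b ∧ b ≤ (2 * a) ^ e := by
  have hq1 : (1:ℝ) ≤ q := by exact_mod_cast hq
  have hβ1 : 1 ≤ β := (one_le_pow₀ hq1).trans hβ
  have hβ0 : 0 ≤ β := by linarith
  obtain ⟨b, hb⟩ : ∃ b : ℝ, b = Real.sqrt (Real.sqrt β) := ⟨_, rfl⟩
  have hb0 : 0 ≤ b := by rw [hb]; exact Real.sqrt_nonneg _
  have hb2 : b ^ 2 = Real.sqrt β := by rw [hb, Real.sq_sqrt (Real.sqrt_nonneg _)]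
  have hb4 : b ^ 4 = β := by
    have : b ^ 4 = (b ^ 2) ^ 2 := by ring
    rw [this, hb2, Real.sq_sqrt hβ0]
  have hbq : ((q:ℝ) ^ 3) ^ e ≤ b := by
    have h1 : (((q:ℝ) ^ 3) ^ e) ^ 4 ≤ b ^ 4 := by
      rw [hb4]
      refine le_trans (le_of_eq ?_) hβ
      rw [← pow_mul, ← pow_mul]; congr 1; ring
    exact le_of_pow_le_pow_left₀ (by norm_num) hb0 h1
  have hb1 : 1 ≤ b := le_trans (one_le_pow₀ (one_le_pow₀ hq1)) hbq
  obtain ⟨t, ht⟩ : ∃ t : ℝ, t = b ^ ((e:ℝ)⁻¹) := ⟨_, rfl⟩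
  have ht0 : 0 ≤ t := by rw [ht]; positivity
  have hte : t ^ e = b := by
    rw [ht, ← Real.rpow_natCast, ← Real.rpow_mul hb0, inv_mul_cancel₀ (by positivity), Real.rpow_one]
  have hqt : (q:ℝ) ^ 3 ≤ t := by
    rw [← hte] at hbq
    exact le_of_pow_le_pow_left₀ (by omega) ht0 hbq
  refine ⟨b, ⌊t⌋₊, hb4, hb1, ?_, ?_, ?_⟩
  · exact Nat.le_floor (by push_cast; exact hqt)
  · rw [← hte]
    exact pow_le_pow_left₀ (Nat.cast_nonneg _) (Nat.floor_le ht0) e
  · rw [← hte]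
    refine pow_le_pow_left₀ ht0 ?_ e
    have h1 := Nat.lt_floor_add_one t
    have h2 : (1:ℝ) ≤ ⌊t⌋₊ := by
      exact_mod_cast (Nat.one_le_floor_iff t).2 (le_trans (one_le_pow₀ hq1) hqt)
    linarith

end limits

variable {G : Type} [Group G] [TopologicalSpace G] [IsTopologicalGroup G] [CompactSpace G]
  [SecondCountableTopology G] [MeasurableSpace G] [BorelSpace G] (μ : Measure G)
  [IsProbabilityMeasure μ] [μ.IsMulLeftInvariant] [μ.IsMulRightInvariant] [μ.IsInvInvariant]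
  {N n : ℕ} {L : LD G N n} {d l : ℕ} [NeZero l] {k : ℕ}

variable (L) in
/-- the gauge invariant local field on the torus -/
def Og (β : ℝ) (pl : Fin k × Bool → Fin d × Fin d) (y : Fin k → St d l) (r : Fin k)
    (U : Ed d l → G) : ℝ :=
  β * ∑ α, fi L α (plqT U (y r) (pl (r, false)).1 (pl (r, false)).2) *
    fi L α (plqT U (y r) (pl (r, true)).1 (pl (r, true)).2)

/-- The scaling limit of the k-point functions. -/
theorem schw (hd : 3 ≤ d) (hW : S_WC) (hB : S_B2) (hT : S_TR) (hH : S_HAF) (hK : S_KER) (k : ℕ) :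
    ∃ K : ℕ, ∀ pl : Fin k × Bool → Fin d × Fin d, (∀ u, (pl u).1 ≠ (pl u).2) →
    ∀ x : Fin k → Fin d → ℝ, Function.Injective x → ∀ ε : ℝ, 0 < ε → ∃ q₀ : ℕ, ∀ q : ℕ, q₀ ≤ q →
    ∀ β : ℝ, (q : ℝ) ^ K ≤ β → ∀ (m : ℕ) [NeZero m], β ≤ 2 * m →
      |(q : ℝ) ^ (d * k) * EX μ L β (fun U : Ed d (2 * m) → G =>
        ∏ r, (Og L β pl (fun r => zt (2 * m) fun i => ⌊(q : ℝ) * x r i⌋) r U -
          EX μ L β (Og L β pl (fun r => zt (2 * m) fun i => ⌊(q : ℝ) * x r i⌋) r))) -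
        sch n k pl x| ≤ ε := by
  obtain ⟨e, κ, C, he, hκe, hC, hcorr⟩ := corr μ (L := L) hd hW hB hT hH k (d * k + 1)
  refine ⟨12 * e, fun pl hpl x hx ε hε => ?_⟩
  have hlim := sch_lim (n := n) hd hH hK pl x hx
  obtain ⟨q₁, hq₁⟩ := Metric.tendsto_atTop.1 hlim (ε / 2) (by positivity)
  obtain ⟨R, hR⟩ : ∃ R : ℕ, ∀ r i, |x r i| + 1 ≤ R := by
    obtain ⟨R, hR⟩ := exists_nat_ge (∑ r, ∑ i, |x r i| + 1)
    refine ⟨R, fun r i => le_trans ?_ hR⟩
    have h1 : |x r i| ≤ ∑ i, |x r i| :=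
      Finset.single_le_sum (f := fun i => |x r i|) (fun _ _ => abs_nonneg _) (Finset.mem_univ i)
    have h2 : ∑ i, |x r i| ≤ ∑ r, ∑ i, |x r i| :=
      Finset.single_le_sum (f := fun r => ∑ i, |x r i|)
        (fun _ _ => Finset.sum_nonneg fun _ _ => abs_nonneg _) (Finset.mem_univ r)
    linarith
  obtain ⟨S, hS⟩ := exists_nat_ge (2 * C / ε)
  refine ⟨max 1 (max q₁ (max R (max S (4 * 3 ^ κ)))), fun q hq β hβ m _ hm => ?_⟩
  have hq1 : 1 ≤ q := (le_max_left _ _).trans hq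
  have hq2 := (le_max_right _ _).trans hq
  have hqq₁ : q₁ ≤ q := (le_max_left _ _).trans hq2
  have hq3 := (le_max_right _ _).trans hq2
  have hqR : R ≤ q := (le_max_left _ _).trans hq3
  have hq4 := (le_max_right _ _).trans hq3
  have hqS : S ≤ q := (le_max_left _ _).trans hq4
  have hqκ : 4 * 3 ^ κ ≤ q := (le_max_right _ _).trans hq4
  have hq1' : (1:ℝ) ≤ q := by exact_mod_cast hq1
  have hq0 : (0:ℝ) < q := by linarith
  obtain ⟨b, a, hb4, hb1, hqa, hab, hba⟩ := scale he hq1 hβ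
  have hqq : q ≤ q ^ 3 := Nat.le_self_pow (by norm_num) q
  have hqa' : q ≤ a := hqq.trans hqa
  have ha1 : 1 ≤ a := hq1.trans hqa'
  have ha1' : (1:ℝ) ≤ a := by exact_mod_cast ha1
  have ha0 : (0:ℝ) < a := by linarith
  have hmκ : 2 * (3 * a) ^ κ ≤ m := by
    have h1 : (a:ℝ) ^ (4 * e) ≤ 2 * m := by
      refine le_trans ?_ hm
      rw [← hb4, mul_comm 4 e, pow_mul]
      exact pow_le_pow_left₀ (by positivity) hab 4
    have h2 : a ^ (4 * e) ≤ 2 * m := by exact_mod_cast h1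
    have h3 : 4 * (3 * a) ^ κ ≤ a ^ (4 * e) := by
      calc 4 * (3 * a) ^ κ = (4 * 3 ^ κ) * a ^ κ := by rw [mul_pow]; ring
        _ ≤ a * a ^ κ := Nat.mul_le_mul_right _ (hqκ.trans hqa')
        _ = a ^ (κ + 1) := by ring
        _ ≤ a ^ (4 * e) := Nat.pow_le_pow_right (by omega) hκe
    omega
  have hY : ∀ r i, |⌊(q:ℝ) * x r i⌋| ≤ (a:ℤ) := by
    intro r i
    have h1 : |((⌊(q:ℝ) * x r i⌋ : ℤ) : ℝ)| ≤ q * |x r i| + 1 := by
      have h2 := Int.floor_le ((q:ℝ) * x r i)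
      have h3 := Int.sub_one_lt_floor ((q:ℝ) * x r i)
      have h4 := abs_le.1 (le_of_eq (abs_mul (q:ℝ) (x r i)))
      rw [abs_of_pos hq0] at h4
      rw [abs_le]
      constructor <;> linarith [h4.1, h4.2]
    have h2 : (q:ℝ) * |x r i| + 1 ≤ a := by
      have h3 : |x r i| + 1 ≤ q := (hR r i).trans (by exact_mod_cast hqR)
      have h4 : ((q ^ 3 : ℕ) : ℝ) ≤ a := by exact_mod_cast hqa
      push_cast at h4
      have h5 : (q:ℝ) * (|x r i| + 1) ≤ q * q := mul_le_mul_of_nonneg_left h3 hq0.le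
      have h6 : (q:ℝ) * q ≤ q ^ 3 := by
        have : (q:ℝ) ^ 3 = q * q * q := by ring
        rw [this]
        exact le_mul_of_one_le_right (by positivity) hq1'
      nlinarith
    have h3 := h1.trans h2
    exact_mod_cast h3
  have hmain := hcorr a ha1 b hab hba m hmκ pl hpl (fun r i => ⌊(q:ℝ) * x r i⌋) hY
  rw [hb4] at hmain
  have hO : ∀ r, (Ob L b pl (fun r => zt (2 * m) fun i => ⌊(q : ℝ) * x r i⌋) r :
      (Ed d (2 * m) → G) → ℝ) = Og L β pl (fun r => zt (2 * m) fun i => ⌊(q : ℝ) * x r i⌋) r := by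
    intro r
    funext U
    unfold Ob Og
    rw [hb4]
  simp only [hO] at hmain
  obtain ⟨Z, hZ⟩ : ∃ Z, Z = EX μ L β (fun U : Ed d (2 * m) → G =>
        ∏ r, (Og L β pl (fun r => zt (2 * m) fun i => ⌊(q : ℝ) * x r i⌋) r U -
          EX μ L β (Og L β pl (fun r => zt (2 * m) fun i => ⌊(q : ℝ) * x r i⌋) r))) := ⟨_, rfl⟩
  obtain ⟨W, hW'⟩ : ∃ W, W = ∑ c : Fin k → Fin n,
      wick k (mc (green d) pl (fun r i => ⌊(q : ℝ) * x r i⌋) c) := ⟨_, rfl⟩
  rw [← hZ]
  rw [← hZ, ← hW'] at hmain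
  have h1 := hq₁ q hqq₁
  rw [← hW', Real.dist_eq] at h1
  have h2 : |(q:ℝ) ^ (d * k) * Z - (q:ℝ) ^ (d * k) * W| ≤ ε / 2 := by
    rw [← mul_sub, abs_mul, abs_of_pos (by positivity)]
    calc (q:ℝ) ^ (d * k) * |Z - W| ≤ (q:ℝ) ^ (d * k) * (C / a ^ (d * k + 1)) :=
          mul_le_mul_of_nonneg_left hmain (by positivity)
      _ ≤ (q:ℝ) ^ (d * k) * (C / q ^ (d * k + 1)) := by
          refine mul_le_mul_of_nonneg_left ?_ (by positivity)
          refine div_le_div_of_nonneg_left hC.le (by positivity) ?_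
          exact pow_le_pow_left₀ hq0.le (by exact_mod_cast hqa') _
      _ = C / q := by rw [pow_succ]; field_simp
      _ ≤ ε / 2 := by
          have h3 : 2 * C / ε ≤ q := hS.trans (by exact_mod_cast hqS)
          rw [div_le_iff₀ hε] at h3
          rw [div_le_iff₀ hq0]
          linarith
  have h3 := abs_sub_le ((q:ℝ) ^ (d * k) * Z) ((q:ℝ) ^ (d * k) * W) (sch n k pl x)
  linarith

end

end Pool.Agent.W793.SCHL
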